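import Mathlib

/-! Operator space definitions: matrix norms, maximal structure, dual structure, local reflexivity. -/

set_option autoImplicit false

namespace Pool.Agent.Helper234.MaxLR

/-- The matrix `a` over `B(H)`, acting on `H^n`, has operator norm at most `c`. -/
def OpLE {H : Type} [NormedAddCommGroup H] [InnerProductSpace ℂ H] {n : ℕ}
    (a : Matrix (Fin n) (Fin n) (H →L[ℂ] H)) (c : ℝ) : Prop :=
  0 ≤ c ∧ ∀ ξ : Fin n → H, ∑ i, ‖∑ j, a i j (ξ j)‖ ^ 2 ≤ c ^ 2 * ∑ j, ‖ξ j‖ ^ 2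

/-- The scalar matrix `a` has operator norm at most `c`. -/
def ScLE {ι : Type} [Fintype ι] (a : Matrix ι ι ℂ) (c : ℝ) : Prop :=
  0 ≤ c ∧ ∀ ξ : ι → ℂ, ∑ i, ‖∑ j, a i j * ξ j‖ ^ 2 ≤ c ^ 2 * ∑ j, ‖ξ j‖ ^ 2

/-- A family of matrix norms on `X`, given by the relations: the norm of the matrix `x` is at most `c`. -/
abbrev MatNorm (X : Type) : Type := ∀ n : ℕ, Matrix (Fin n) (Fin n) X → ℝ → Prop

/-- The matrix norms of a subspace of `B(H)`. -/
def concN {H : Type} [NormedAddCommGroup H] [InnerProductSpace ℂ H]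
    (E : Submodule ℂ (H →L[ℂ] H)) : MatNorm E :=
  fun _ x c => OpLE (x.map (fun e => (e : H →L[ℂ] H))) c

/-- The maximal operator space structure on `F`. -/
def maxN (F : Type) [NormedAddCommGroup F] [NormedSpace ℂ F] : MatNorm F :=
  fun _ x c => 0 ≤ c ∧ ∀ (H : Type) [NormedAddCommGroup H] [InnerProductSpace ℂ H]
    [CompleteSpace H] (w : F →L[ℂ] (H →L[ℂ] H)), ‖w‖ ≤ 1 → OpLE (x.map w) c

/-- The dual matrix norms: `f ∈ M_n(X*)` is identified with a map `X → M_n`, with its completely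
bounded norm. -/
def dualN {X : Type} [NormedAddCommGroup X] [NormedSpace ℂ X] (N : MatNorm X) :
    MatNorm (X →L[ℂ] ℂ) :=
  fun n f c => 0 ≤ c ∧ ∀ (m : ℕ) (x : Matrix (Fin m) (Fin m) X) (d : ℝ), N m x d →
    ScLE (fun p q : Fin n × Fin m => f p.1 q.1 (x p.2 q.2)) (c * d)

/-- `u` is completely bounded with `‖u‖_cb ≤ lam`. -/
def CBLE {X Y : Type} [AddCommGroup X] [Module ℂ X] [AddCommGroup Y] [Module ℂ Y]
    (N : MatNorm X) (M : MatNorm Y) (u : X →ₗ[ℂ] Y) (lam : ℝ) : Prop :=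
  ∀ (n : ℕ) (x : Matrix (Fin n) (Fin n) X) (c : ℝ), N n x c → M n (x.map u) (lam * c)

/-- `lam`-local reflexivity. -/
def LocallyReflexive {X : Type} [NormedAddCommGroup X] [NormedSpace ℂ X] (N : MatNorm X)
    (lam : ℝ) : Prop :=
  ∀ (H : Type) [NormedAddCommGroup H] [InnerProductSpace ℂ H] [CompleteSpace H]
    (E : Submodule ℂ (H →L[ℂ] H)) [FiniteDimensional ℂ E]
    (u : E →ₗ[ℂ] ((X →L[ℂ] ℂ) →L[ℂ] ℂ)),
    CBLE (concN E) (dualN (dualN N)) u 1 →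
    ∀ (S : Finset E) (T : Finset (X →L[ℂ] ℂ)) (ε : ℝ), 0 < ε →
      ∃ v : E →ₗ[ℂ] X, CBLE (concN E) N v lam ∧ ∀ x ∈ S, ∀ f ∈ T, ‖f (v x) - u x f‖ < ε


end Pool.Agent.Helper234.MaxLR
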