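import Mathlib
import Pool.Agent.Helper234.MaxLR.LDefs

set_option autoImplicit false
open scoped Matrix.Norms.L2Operator

namespace Pool.Agent.Helper234.MaxLR


section embdiag

variable {ι : Type} {G : ι → Type} [∀ i, NormedAddCommGroup (G i)] [∀ i, InnerProductSpace ℂ (G i)]

theorem mxd_dg (T : ∀ i, G i →L[ℂ] G i) (C : ℝ) (hC : 0 ≤ C) (hT : ∀ i, ‖T i‖ ≤ C) :
    ∃ D : lp G 2 →L[ℂ] lp G 2,
      (∀ (f : lp G 2) (i : ι), (D f : ∀ i, G i) i = T i ((f : ∀ i, G i) i)) ∧ ‖D‖ ≤ C := by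
  have hp : 0 < (2 : ENNReal).toReal := by simp
  have hbd : ∀ (f : lp G 2) (s : Finset ι),
      ∑ i ∈ s, ‖T i ((f : ∀ i, G i) i)‖ ^ (2 : ENNReal).toReal ≤ (C * ‖f‖) ^ (2 : ENNReal).toReal := by
    intro f s
    calc ∑ i ∈ s, ‖T i ((f : ∀ i, G i) i)‖ ^ (2 : ENNReal).toReal
        ≤ ∑ i ∈ s, C ^ (2 : ENNReal).toReal * ‖(f : ∀ i, G i) i‖ ^ (2 : ENNReal).toReal := by
          apply Finset.sum_le_sum
          intro i _
          rw [← Real.mul_rpow hC (norm_nonneg _)]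
          apply Real.rpow_le_rpow (norm_nonneg _) _ hp.le
          exact ((T i).le_opNorm _).trans (mul_le_mul_of_nonneg_right (hT i) (norm_nonneg _))
      _ = C ^ (2 : ENNReal).toReal * ∑ i ∈ s, ‖(f : ∀ i, G i) i‖ ^ (2 : ENNReal).toReal := by
          rw [Finset.mul_sum]
      _ ≤ C ^ (2 : ENNReal).toReal * ‖f‖ ^ (2 : ENNReal).toReal :=
          mul_le_mul_of_nonneg_left (lp.sum_rpow_le_norm_rpow hp f s) (Real.rpow_nonneg hC _)
      _ = _ := by rw [Real.mul_rpow hC (norm_nonneg _)]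
  have hmem : ∀ f : lp G 2, Memℓp (fun i => T i ((f : ∀ i, G i) i)) 2 := fun f => memℓp_gen' (hbd f)
  obtain ⟨D0, hD0⟩ : ∃ D0 : lp G 2 → lp G 2,
      ∀ (f : lp G 2) (i : ι), (D0 f : ∀ i, G i) i = T i ((f : ∀ i, G i) i) :=
    ⟨fun f => ⟨fun i => T i ((f : ∀ i, G i) i), hmem f⟩, fun f i => rfl⟩
  have hadd : ∀ f g, D0 (f + g) = D0 f + D0 g := by
    intro f g
    apply lp.ext
    funext i
    rw [hD0, lp.coeFn_add, lp.coeFn_add, Pi.add_apply, Pi.add_apply, map_add, hD0, hD0]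
  have hsmul : ∀ (c : ℂ) f, D0 (c • f) = c • D0 f := by
    intro c f
    apply lp.ext
    funext i
    rw [hD0, lp.coeFn_smul, lp.coeFn_smul, Pi.smul_apply, Pi.smul_apply, map_smul, hD0]
  have hnorm : ∀ f, ‖D0 f‖ ≤ C * ‖f‖ := by
    intro f
    apply lp.norm_le_of_forall_sum_le hp (by positivity)
    intro s
    have h1 : ∀ i ∈ s, ‖(D0 f : ∀ i, G i) i‖ ^ (2 : ENNReal).toReal =
        ‖T i ((f : ∀ i, G i) i)‖ ^ (2 : ENNReal).toReal := by
      intro i _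
      rw [hD0]
    rw [Finset.sum_congr rfl h1]
    exact hbd f s
  refine ⟨LinearMap.mkContinuous ⟨⟨D0, hadd⟩, hsmul⟩ C hnorm, ?_, ?_⟩
  · intro f i
    exact hD0 f i
  · exact LinearMap.mkContinuous_norm_le _ hC _

theorem mxd_dg_unique {D D' : lp G 2 →L[ℂ] lp G 2}
    (h : ∀ (f : lp G 2) (i : ι), (D f : ∀ i, G i) i = (D' f : ∀ i, G i) i) : D = D' := by
  ext1 f
  apply lp.ext
  funext i
  exact h f i

end embdiag

/-- Universal block diagonal map: direct sum of all contractions into matrix algebras killing `K`. -/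
theorem diagEmb {B : Type} [NormedAddCommGroup B] [NormedSpace ℂ B] (K : Submodule ℂ B) :
    ∃ (H : Type) (_ : NormedAddCommGroup H) (_ : InnerProductSpace ℂ H) (_ : CompleteSpace H)
      (D : B →ₗ[ℂ] (H →L[ℂ] H)),
      (∀ x, ‖D x‖ ≤ ‖x‖) ∧ (∀ k ∈ K, D k = 0) ∧
      ∀ (m : ℕ) (w : B →ₗ[ℂ] Matrix (Fin m) (Fin m) ℂ), (∀ x, ‖w x‖ ≤ ‖x‖) →
        (∀ k ∈ K, w k = 0) → ∀ (n : ℕ) (x : Matrix (Fin n) (Fin n) B) (c : ℝ),
        OpLE (fun i j => D (x i j)) c →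
        ScLE (fun p q : Fin n × Fin m => w (x p.1 q.1) p.2 q.2) c := by
  classical
  let W : Type := Σ m : ℕ, {w : B →ₗ[ℂ] Matrix (Fin m) (Fin m) ℂ //
    (∀ x, ‖w x‖ ≤ ‖x‖) ∧ ∀ k ∈ K, w k = 0}
  let G : W → Type := fun i => EuclideanSpace ℂ (Fin i.1)
  have hDex : ∀ x : B, ∃ D : lp (fun i : W => EuclideanSpace ℂ (Fin i.1)) 2 →L[ℂ]
      lp (fun i : W => EuclideanSpace ℂ (Fin i.1)) 2,
      (∀ (f : lp (fun i : W => EuclideanSpace ℂ (Fin i.1)) 2) (i : W),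
        (D f : ∀ i : W, EuclideanSpace ℂ (Fin i.1)) i =
        Matrix.toEuclideanCLM (n := Fin i.1) (𝕜 := ℂ) (i.2.1 x)
          ((f : ∀ i : W, EuclideanSpace ℂ (Fin i.1)) i)) ∧ ‖D‖ ≤ ‖x‖ := by
    intro x
    exact mxd_dg (fun i : W => Matrix.toEuclideanCLM (n := Fin i.1) (𝕜 := ℂ) (i.2.1 x)) ‖x‖
      (norm_nonneg _) (fun i => i.2.2.1 x)
  choose D0 hD0 hD0n using hDex
  have hadd : ∀ x y, D0 (x + y) = D0 x + D0 y := by
    intro x y
    apply mxd_dg_unique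
    intro f i
    rw [hD0]
    show Matrix.toEuclideanCLM (n := Fin i.1) (𝕜 := ℂ) (i.2.1 (x + y)) _ =
      (D0 x f : ∀ i : W, EuclideanSpace ℂ (Fin i.1)) i + (D0 y f : ∀ i : W, EuclideanSpace ℂ (Fin i.1)) i
    rw [hD0, hD0, map_add, map_add]
    rfl
  have hsmul : ∀ (c : ℂ) x, D0 (c • x) = c • D0 x := by
    intro c x
    apply mxd_dg_unique
    intro f i
    rw [hD0]
    show Matrix.toEuclideanCLM (n := Fin i.1) (𝕜 := ℂ) (i.2.1 (c • x)) _ =
      c • (D0 x f : ∀ i : W, EuclideanSpace ℂ (Fin i.1)) i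
    rw [hD0, map_smul, map_smul]
    rfl
  refine ⟨lp (fun i : W => EuclideanSpace ℂ (Fin i.1)) 2, inferInstance, inferInstance,
    inferInstance, { toFun := D0, map_add' := hadd, map_smul' := hsmul }, hD0n, ?_, ?_⟩
  · intro k hk
    show D0 k = 0
    apply mxd_dg_unique
    intro f i
    rw [hD0, i.2.2.2 k hk, map_zero]
    rfl
  · intro m w hw hwK n x c hc
    refine ⟨hc.1, fun ξ => ?_⟩
    obtain ⟨i0, hi0⟩ : ∃ i0 : W, i0 = ⟨m, w, hw, hwK⟩ := ⟨_, rfl⟩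
    have key : ∀ (v : Fin n → EuclideanSpace ℂ (Fin m)),
        ∑ i, ‖∑ j, Matrix.toEuclideanCLM (n := Fin m) (𝕜 := ℂ) (w (x i j)) (v j)‖ ^ 2 ≤
          c ^ 2 * ∑ j, ‖v j‖ ^ 2 := by
      intro v
      have h1 := hc.2 (fun j => lp.single 2 (⟨m, w, hw, hwK⟩ : W) (v j))
      have h2 : ∀ i, ∑ j, D0 (x i j) (lp.single 2 (⟨m, w, hw, hwK⟩ : W) (v j)) =
          lp.single 2 (⟨m, w, hw, hwK⟩ : W)
            (∑ j, Matrix.toEuclideanCLM (n := Fin m) (𝕜 := ℂ) (w (x i j)) (v j)) := by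
        intro i
        apply lp.ext
        funext k
        rw [lp.coeFn_sum, Finset.sum_apply]
        by_cases hk : k = (⟨m, w, hw, hwK⟩ : W)
        · subst hk
          rw [lp.single_apply_self]
          apply Finset.sum_congr rfl
          intro j _
          rw [hD0, lp.single_apply_self]
        · rw [lp.single_apply_ne _ _ _ hk]
          apply Finset.sum_eq_zero
          intro j _
          rw [hD0, lp.single_apply_ne _ _ _ hk, map_zero]
      have hp : 0 < (2 : ENNReal) := by norm_num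
      have h3 : ∀ i, ‖∑ j, D0 (x i j) (lp.single 2 (⟨m, w, hw, hwK⟩ : W) (v j))‖ =
          ‖∑ j, Matrix.toEuclideanCLM (n := Fin m) (𝕜 := ℂ) (w (x i j)) (v j)‖ := by
        intro i
        rw [h2, lp.norm_single hp]
      have h4 : ∀ j, ‖lp.single (E := fun i : W => EuclideanSpace ℂ (Fin i.1)) 2
          (⟨m, w, hw, hwK⟩ : W) (v j)‖ = ‖v j‖ := by
        intro j
        rw [lp.norm_single hp]
      calc _ = ∑ i, ‖∑ j, D0 (x i j) (lp.single 2 (⟨m, w, hw, hwK⟩ : W) (v j))‖ ^ 2 := by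
            apply Finset.sum_congr rfl
            intro i _
            rw [h3]
        _ ≤ c ^ 2 * ∑ j, ‖lp.single (E := fun i : W => EuclideanSpace ℂ (Fin i.1)) 2
          (⟨m, w, hw, hwK⟩ : W) (v j)‖ ^ 2 := h1
        _ = _ := by
            congr 1
            apply Finset.sum_congr rfl
            intro j _
            rw [h4]
    have h5 := key (fun j => WithLp.toLp 2 (fun k => ξ (j, k)))
    rw [Fintype.sum_prod_type, Fintype.sum_prod_type]
    simp_rw [EuclideanSpace.norm_sq_eq] at h5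
    refine le_trans (le_of_eq ?_) h5
    apply Finset.sum_congr rfl
    intro i _
    apply Finset.sum_congr rfl
    intro k _
    congr 2
    rw [Fintype.sum_prod_type, WithLp.ofLp_sum, Finset.sum_apply]
    apply Finset.sum_congr rfl
    intro j _
    rw [Matrix.ofLp_toEuclideanCLM]
    rfl

end Pool.Agent.Helper234.MaxLR
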