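import Mathlib
import Pool.Agent.Helper234.MaxLR.LDefs

set_option autoImplicit false
open scoped Matrix.Norms.L2Operator

namespace Pool.Agent.Helper234.MaxLR


theorem D3_ultralim {V : Type*} [NormedAddCommGroup V] [NormedSpace ℂ V] (𝒰 : Ultrafilter ℕ)
    (f : ℕ → V →ₗ[ℂ] ℂ) (R : ℝ) (hf : ∀ j x, ‖f j x‖ ≤ R * ‖x‖) :
    ∃ Φ : V →L[ℂ] ℂ, ∀ x, Filter.Tendsto (fun j => f j x) 𝒰 (nhds (Φ x)) := by
  have hex : ∀ x, ∃ y : ℂ, y ∈ Metric.closedBall (0:ℂ) (R * ‖x‖) ∧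
      Filter.Tendsto (fun j => f j x) 𝒰 (nhds y) := by
    intro x
    have h1 : ((𝒰.map (fun j => f j x) : Ultrafilter ℂ) : Filter ℂ) ≤
        Filter.principal (Metric.closedBall (0:ℂ) (R * ‖x‖)) := by
      rw [Filter.le_principal_iff, Ultrafilter.mem_coe, Ultrafilter.mem_map]
      apply Filter.univ_mem'
      intro j
      show f j x ∈ Metric.closedBall (0:ℂ) (R * ‖x‖)
      rw [mem_closedBall_zero_iff]
      exact hf j x
    obtain ⟨y, hy, hy2⟩ := (isCompact_closedBall (0:ℂ) (R * ‖x‖)).ultrafilter_le_nhds _ h1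
    exact ⟨y, hy, hy2⟩
  choose g hg1 hg2 using hex
  refine ⟨LinearMap.mkContinuous
    { toFun := g
      map_add' := fun x y => by
        have h1 := (hg2 x).add (hg2 y)
        have h2 := hg2 (x + y)
        simp only [map_add] at h2
        exact tendsto_nhds_unique h2 h1
      map_smul' := fun a x => by
        have h1 := (hg2 x).const_mul a
        have h2 := hg2 (a • x)
        simp only [map_smul, smul_eq_mul] at h2
        exact tendsto_nhds_unique h2 h1 } R (fun x => by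
          have := hg1 x
          rw [mem_closedBall_zero_iff] at this
          exact this), fun x => hg2 x⟩

theorem limFunctional {Λ : Type} [Fintype Λ] {ι : ℕ → Type} [∀ i, Fintype (ι i)]
    [∀ i, DecidableEq (ι i)] (z : ∀ j, (Λ → Matrix (ι j) (ι j) ℂ) →ₗ[ℂ] ℂ) (R : ℝ) (hR : 0 ≤ R)
    (hz : ∀ j (w : Λ → Matrix (ι j) (ι j) ℂ) (c : ℝ), 0 ≤ c → (∀ k, ‖w k‖ ≤ c) →
      ‖z j w‖ ≤ R * c)
    (c : ∀ j, (lp (fun _ : ℕ => ℂ) 2 →L[ℂ] lp (fun _ : ℕ => ℂ) 2) →ₗ[ℂ] Matrix (ι j) (ι j) ℂ)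
    (hc1 : ∀ j a, ‖c j a‖ ≤ ‖a‖)
    (hc2 : ∀ k : lp (fun _ : ℕ => ℂ) 2 →L[ℂ] lp (fun _ : ℕ => ℂ) 2, IsCompactOperator (⇑k) →
      Filter.Tendsto (fun j => ‖c j k‖) Filter.atTop (nhds 0)) :
    ∃ Φ : Λ → ((lp (fun _ : ℕ => ℂ) 2 →L[ℂ] lp (fun _ : ℕ => ℂ) 2) →L[ℂ] ℂ),
      (∀ k (x : lp (fun _ : ℕ => ℂ) 2 →L[ℂ] lp (fun _ : ℕ => ℂ) 2),
        IsCompactOperator (⇑x) → Φ k x = 0) ∧
      ∀ (a : Λ → (lp (fun _ : ℕ => ℂ) 2 →L[ℂ] lp (fun _ : ℕ => ℂ) 2)) (δ : ℝ), 0 < δ →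
        ∃ j, ‖z j (fun k => c j (a k)) - ∑ k, Φ k (a k)‖ ≤ δ := by
  classical
  set 𝒰 : Ultrafilter ℕ := Filter.hyperfilter ℕ with h𝒰
  have hle : (𝒰 : Filter ℕ) ≤ Filter.atTop := by
    rw [h𝒰, ← Nat.cofinite_eq_atTop]
    exact Filter.hyperfilter_le_cofinite
  have hbd : ∀ (k : Λ) (j : ℕ) (m : Matrix (ι j) (ι j) ℂ), ‖z j (Pi.single k m)‖ ≤ R * ‖m‖ := by
    intro k j m
    apply hz j _ _ (norm_nonneg _)
    intro k'
    by_cases h : k' = k
    · subst h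
      rw [Pi.single_eq_same]
    · rw [Pi.single_eq_of_ne h, norm_zero]
      exact norm_nonneg _
  have hex := fun k : Λ => D3_ultralim 𝒰
    (fun j => (z j).comp ((LinearMap.single ℂ (fun _ : Λ => Matrix (ι j) (ι j) ℂ) k).comp (c j))) R
    (by
      intro j x
      show ‖z j (Pi.single k (c j x))‖ ≤ R * ‖x‖
      exact (hbd k j (c j x)).trans (mul_le_mul_of_nonneg_left (hc1 j x) hR))
  choose Φ hΦ using hex
  have hΦ' : ∀ k x, Filter.Tendsto (fun j => z j (Pi.single k (c j x))) 𝒰 (nhds (Φ k x)) :=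
    fun k x => hΦ k x
  refine ⟨Φ, ?_, ?_⟩
  · intro k x hx
    have h1 : Filter.Tendsto (fun j => z j (Pi.single k (c j x))) 𝒰 (nhds 0) := by
      have h2 : Filter.Tendsto (fun j => R * ‖c j x‖) 𝒰 (nhds 0) := by
        have := ((hc2 x hx).mono_left hle).const_mul R
        rwa [mul_zero] at this
      exact squeeze_zero_norm (fun j => hbd k j (c j x)) h2
    exact tendsto_nhds_unique (hΦ' k x) h1
  · intro a δ hδ
    have h1 : Filter.Tendsto (fun j => ∑ k, z j (Pi.single k (c j (a k)))) 𝒰 (nhds (∑ k, Φ k (a k))) :=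
      tendsto_finsetSum _ (fun k _ => hΦ' k (a k))
    have h2 : ∀ j, z j (fun k => c j (a k)) = ∑ k, z j (Pi.single k (c j (a k))) := by
      intro j
      rw [← map_sum]
      congr 1
      rw [Finset.univ_sum_single]
    have h3 := h1.eventually (Metric.closedBall_mem_nhds _ hδ)
    obtain ⟨j, hj⟩ := h3.exists
    refine ⟨j, ?_⟩
    rw [h2]
    rw [dist_eq_norm] at hj
    exact hj


end Pool.Agent.Helper234.MaxLR
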