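import Mathlib
import Pool.Agent.Helper234.MaxLR.LDefs

set_option autoImplicit false
open scoped Matrix.Norms.L2Operator

namespace Pool.Agent.Helper234.MaxLR


namespace SingP
open Filter Topology

noncomputable abbrev HH := lp (fun _ : ℕ => ℂ) 2

/-- basis vectors -/
noncomputable def e (i : ℕ) : HH := lp.single 2 i (1 : ℂ)

/-- rank one projections -/
noncomputable def R (i : ℕ) : HH →L[ℂ] HH := (innerSL ℂ (e i)).smulRight (e i)

theorem R_apply (i : ℕ) (x : HH) : R i x = lp.single 2 i (x i) := by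
  show (inner ℂ (e i) x) • (e i) = _
  have h : inner ℂ (e i) x = x i := by
    unfold e
    rw [lp.inner_single_left]
    simp
  rw [h]
  ext j
  unfold e
  rw [lp.coeFn_smul, Pi.smul_apply, lp.single_apply, lp.single_apply, smul_eq_mul]
  by_cases hij : j = i
  · subst hij
    simp
  · simp [hij]

theorem R_compact (i : ℕ) : IsCompactOperator (⇑(R i)) := by
  have h1 : IsCompactOperator (id : ℂ → ℂ) := isCompactOperator_id
  have h2 := h1.comp_clm (innerSL ℂ (e i))
  exact h2.clm_comp (ContinuousLinearMap.toSpanSingleton ℂ (e i))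

/-- projection on the first coordinates -/
noncomputable def p (n : ℕ) : HH →L[ℂ] HH := ∑ i ∈ Finset.range n, R i

theorem p_apply (n : ℕ) (x : HH) : p n x = ∑ i ∈ Finset.range n, lp.single 2 i (x i) := by
  unfold p
  rw [ContinuousLinearMap.sum_apply]
  exact Finset.sum_congr rfl (fun i _ => R_apply i x)

theorem p_compact (n : ℕ) : IsCompactOperator (⇑(p n)) := by
  induction n with
  | zero =>
    have : (⇑(p 0) : HH → HH) = 0 := by
      funext x
      simp [p]
    rw [this]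
    exact isCompactOperator_zero
  | succ n ih =>
    have : (⇑(p (n + 1)) : HH → HH) = ⇑(p n) + ⇑(R n) := by
      funext x
      simp [p, Finset.sum_range_succ]
    rw [this]
    exact ih.add (R_compact n)

theorem p_tendsto (x : HH) : Tendsto (fun n => p n x) atTop (𝓝 x) := by
  have h := (lp.hasSum_single (p := 2) (by norm_num) x).tendsto_sum_nat
  simp only [p_apply]
  exact h

noncomputable def q (n : ℕ) : HH →L[ℂ] HH := 1 - p n

theorem q_apply (n : ℕ) (x : HH) : q n x = x - p n x := by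
  simp [q]

theorem q_tendsto (x : HH) : Tendsto (fun n => q n x) atTop (𝓝 0) := by
  simp only [q_apply]
  have h := tendsto_const_nhds (x := x) (f := (atTop : Filter ℕ)) |>.sub (p_tendsto x)
  rwa [sub_self] at h

theorem q_le (n : ℕ) (x : HH) : ‖q n x‖ ≤ ‖x‖ := by
  refine lp.norm_mono (by norm_num) (fun j => ?_)
  rw [q_apply, p_apply, lp.coeFn_sub, Pi.sub_apply, lp.coeFn_sum, Finset.sum_apply]
  have h : ∑ i ∈ Finset.range n, (lp.single 2 i (x i) : HH) j = if j < n then x j else 0 := by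
    have h2 : ∀ i ∈ Finset.range n, (lp.single 2 i (x i) : HH) j = if j = i then x j else 0 := by
      intro i _
      rw [lp.single_apply]
      by_cases hij : j = i
      · subst hij; simp
      · simp [hij]
    rw [Finset.sum_congr rfl h2, Finset.sum_ite_eq]
    simp
  rw [h]
  split_ifs
  · simp
  · simp

theorem q_norm (n : ℕ) : ‖q n‖ ≤ 1 :=
  ContinuousLinearMap.opNorm_le_bound _ zero_le_one (fun x => by rw [one_mul]; exact q_le n x)

/-- compression -/
noncomputable def cq (n : ℕ) (x : HH →L[ℂ] HH) : HH →L[ℂ] HH := (q n).comp (x.comp (q n))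

theorem cq_norm (n : ℕ) (x : HH →L[ℂ] HH) : ‖cq n x‖ ≤ ‖x‖ := by
  unfold cq
  calc _ ≤ ‖q n‖ * ‖x.comp (q n)‖ := ContinuousLinearMap.opNorm_comp_le _ _
    _ ≤ ‖q n‖ * (‖x‖ * ‖q n‖) := mul_le_mul_of_nonneg_left (ContinuousLinearMap.opNorm_comp_le _ _)
        (norm_nonneg _)
    _ ≤ 1 * (‖x‖ * 1) := mul_le_mul (q_norm n) (mul_le_mul_of_nonneg_left (q_norm n) (norm_nonneg _))
        (by positivity) zero_le_one
    _ = ‖x‖ := by ring

theorem cq_add (n : ℕ) (x y : HH →L[ℂ] HH) : cq n (x + y) = cq n x + cq n y := by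
  unfold cq
  ext1 z
  simp

theorem cq_smul (n : ℕ) (c : ℂ) (x : HH →L[ℂ] HH) : cq n (c • x) = c • cq n x := by
  unfold cq
  ext1 z
  simp

theorem cq_sub_compact (n : ℕ) (x : HH →L[ℂ] HH) : IsCompactOperator (⇑(x - cq n x)) := by
  have h1 : IsCompactOperator (⇑(p n) ∘ ⇑x) := (p_compact n).comp_clm x
  have h2 : IsCompactOperator (⇑x ∘ ⇑(p n)) := (p_compact n).clm_comp x
  have h3 : IsCompactOperator (⇑(p n) ∘ (⇑x ∘ ⇑(p n))) := h2.clm_comp (p n)
  have e : (⇑(x - cq n x) : HH → HH) = (⇑(p n) ∘ ⇑x + ⇑x ∘ ⇑(p n)) - ⇑(p n) ∘ (⇑x ∘ ⇑(p n)) := by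
    funext z
    simp only [cq, ContinuousLinearMap.sub_apply, ContinuousLinearMap.comp_apply, q_apply,
      Pi.sub_apply, Pi.add_apply, Function.comp_apply, map_sub]
    abel
  rw [e]
  exact (h1.add h2).sub h3

theorem cq_compact_tendsto (k : HH →L[ℂ] HH) (hk : IsCompactOperator (⇑k)) :
    Tendsto (fun n => ‖cq n k‖) atTop (𝓝 0) := by
  rw [Metric.tendsto_atTop]
  intro ε hε
  have hc : IsCompactOperator (⇑(k : HH →ₗ[ℂ] HH)) := hk
  obtain ⟨K, hK, hKs⟩ := hc.image_closedBall_subset_compact 1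
  have htb := hK.totallyBounded
  rw [Metric.totallyBounded_iff] at htb
  obtain ⟨t, ht, hcov⟩ := htb (ε / 4) (by positivity)
  have hev : ∀ᶠ n in atTop, ∀ y ∈ t, ‖q n y‖ < ε / 4 := by
    rw [Filter.eventually_all_finite ht]
    intro y _
    have := (q_tendsto y).norm
    rw [norm_zero] at this
    exact this.eventually_lt_const (by positivity)
  obtain ⟨N, hN⟩ := Filter.eventually_atTop.1 hev
  refine ⟨N, fun n hn => ?_⟩
  have hball : ∀ z : HH, ‖z‖ ≤ 1 → ‖q n (k z)‖ ≤ ε / 2 := by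
    intro z hz
    have h1 : k z ∈ K := hKs ⟨z, mem_closedBall_zero_iff.2 hz, rfl⟩
    have h2 := hcov h1
    simp only [Set.mem_iUnion, Metric.mem_ball] at h2
    obtain ⟨y, hy, hd⟩ := h2
    have e : q n (k z) = q n (k z - y) + q n y := by rw [map_sub]; abel
    rw [e]
    calc _ ≤ ‖q n (k z - y)‖ + ‖q n y‖ := norm_add_le _ _
      _ ≤ ‖k z - y‖ + ‖q n y‖ := add_le_add (q_le n _) le_rfl
      _ ≤ ε / 4 + ε / 4 := by
          rw [dist_eq_norm] at hd
          exact add_le_add hd.le (hN n hn y hy).le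
      _ = ε / 2 := by ring
  have hnorm : ‖cq n k‖ ≤ ε / 2 := by
    refine ContinuousLinearMap.opNorm_le_bound _ (by positivity) (fun z => ?_)
    show ‖q n (k (q n z))‖ ≤ ε / 2 * ‖z‖
    rcases eq_or_ne z 0 with h | h
    · rw [h]
      simp
    · have hz : 0 < ‖z‖ := norm_pos_iff.2 h
      have h1 := hball (((‖z‖ : ℂ)⁻¹) • q n z) (by
        rw [norm_smul, norm_inv, Complex.norm_real, Real.norm_of_nonneg (norm_nonneg z)]
        rw [inv_mul_le_iff₀ hz, mul_one]
        exact q_le n z)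
      rw [map_smul, map_smul, norm_smul, norm_inv, Complex.norm_real,
        Real.norm_of_nonneg (norm_nonneg z), inv_mul_le_iff₀ hz] at h1
      linarith
  rw [Real.dist_eq, sub_zero, abs_of_nonneg (norm_nonneg _)]
  linarith

noncomputable abbrev FF := (HH →L[ℂ] HH) →L[ℂ] ℂ

theorem lim_exists (f : FF) (x : HH →L[ℂ] HH) : ∃ L : ℂ, ‖L‖ ≤ ‖f‖ * ‖x‖ ∧
    Tendsto (fun n => f (cq n x)) (hyperfilter ℕ : Filter ℕ) (𝓝 L) := by
  have hb : ∀ n, f (cq n x) ∈ Metric.closedBall (0 : ℂ) (‖f‖ * ‖x‖) := by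
    intro n
    rw [mem_closedBall_zero_iff]
    exact (f.le_opNorm _).trans (mul_le_mul_of_nonneg_left (cq_norm n x) (norm_nonneg _))
  obtain ⟨L, hL1, hL2⟩ := (isCompact_closedBall (0 : ℂ) (‖f‖ * ‖x‖)).ultrafilter_le_nhds'
    ((hyperfilter ℕ).map (fun n => f (cq n x)))
    (Ultrafilter.mem_map.2 (Filter.mem_of_superset Filter.univ_mem (fun n _ => hb n)))
  exact ⟨L, mem_closedBall_zero_iff.1 hL1, hL2⟩

noncomputable def Lm (f : FF) (x : HH →L[ℂ] HH) : ℂ := (lim_exists f x).choose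

theorem Lm_norm (f : FF) (x : HH →L[ℂ] HH) : ‖Lm f x‖ ≤ ‖f‖ * ‖x‖ := (lim_exists f x).choose_spec.1

theorem Lm_tendsto (f : FF) (x : HH →L[ℂ] HH) :
    Tendsto (fun n => f (cq n x)) (hyperfilter ℕ : Filter ℕ) (𝓝 (Lm f x)) :=
  (lim_exists f x).choose_spec.2

theorem Lm_eq (f : FF) (x : HH →L[ℂ] HH) (c : ℂ)
    (h : Tendsto (fun n => f (cq n x)) (hyperfilter ℕ : Filter ℕ) (𝓝 c)) : Lm f x = c :=
  tendsto_nhds_unique (Lm_tendsto f x) h

theorem hyper_le : (hyperfilter ℕ : Filter ℕ) ≤ atTop := by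
  rw [← Nat.cofinite_eq_atTop]
  exact hyperfilter_le_cofinite

noncomputable def S1 (f : FF) : FF :=
  LinearMap.mkContinuous
    { toFun := Lm f
      map_add' := fun x y => by
        refine Lm_eq f _ _ ?_
        simp only [cq_add, map_add]
        exact (Lm_tendsto f x).add (Lm_tendsto f y)
      map_smul' := fun c x => by
        refine Lm_eq f _ _ ?_
        simp only [cq_smul, map_smul, RingHom.id_apply]
        exact (Lm_tendsto f x).const_smul c } ‖f‖ (Lm_norm f)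

theorem S1_apply (f : FF) (x : HH →L[ℂ] HH) : S1 f x = Lm f x := rfl

noncomputable def S2 : FF →ₗ[ℂ] FF where
  toFun := S1
  map_add' f g := by
    ext1 x
    rw [S1_apply]
    refine Lm_eq _ _ _ ?_
    exact (Lm_tendsto f x).add (Lm_tendsto g x)
  map_smul' c f := by
    ext1 x
    rw [S1_apply]
    refine Lm_eq _ _ _ ?_
    exact (Lm_tendsto f x).const_smul c

theorem S2_tendsto (f : FF) (x : HH →L[ℂ] HH) :
    Tendsto (fun n => f (cq n x)) (hyperfilter ℕ : Filter ℕ) (𝓝 (S2 f x)) := Lm_tendsto f x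

end SingP

open SingP Filter Topology in
/-- The singular part of functionals on `B(ℓ²)`. -/
theorem singPart :
    ∃ S : ((lp (fun _ : ℕ => ℂ) 2 →L[ℂ] lp (fun _ : ℕ => ℂ) 2) →L[ℂ] ℂ) →ₗ[ℂ]
        ((lp (fun _ : ℕ => ℂ) 2 →L[ℂ] lp (fun _ : ℕ => ℂ) 2) →L[ℂ] ℂ),
      (∀ f (k : lp (fun _ : ℕ => ℂ) 2 →L[ℂ] lp (fun _ : ℕ => ℂ) 2),
        IsCompactOperator (⇑k) → S f k = 0) ∧
      (∀ f : (lp (fun _ : ℕ => ℂ) 2 →L[ℂ] lp (fun _ : ℕ => ℂ) 2) →L[ℂ] ℂ,
        (∀ k : lp (fun _ : ℕ => ℂ) 2 →L[ℂ] lp (fun _ : ℕ => ℂ) 2,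
          IsCompactOperator (⇑k) → f k = 0) → S f = f) ∧
      ∀ (m : ℕ) (f : Matrix (Fin m) (Fin m)
          ((lp (fun _ : ℕ => ℂ) 2 →L[ℂ] lp (fun _ : ℕ => ℂ) 2) →L[ℂ] ℂ)) (d : ℝ),
        (∀ x, ‖(Matrix.of fun k l => f k l x : Matrix (Fin m) (Fin m) ℂ)‖ ≤ d * ‖x‖) →
        ∀ x, ‖(Matrix.of fun k l => S (f k l) x : Matrix (Fin m) (Fin m) ℂ)‖ ≤ d * ‖x‖ := by
  refine ⟨S2, ?_, ?_, ?_⟩
  · intro f k hk
    refine tendsto_nhds_unique (S2_tendsto f k) ?_
    have h1 : Tendsto (fun n => ‖f‖ * ‖cq n k‖) (hyperfilter ℕ : Filter ℕ) (𝓝 0) := by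
      have := (cq_compact_tendsto k hk).const_mul ‖f‖
      rw [mul_zero] at this
      exact this.mono_left hyper_le
    exact squeeze_zero_norm (fun n => f.le_opNorm _) h1
  · intro f hf
    ext1 x
    refine tendsto_nhds_unique (S2_tendsto f x) ?_
    have h1 : ∀ n, f (cq n x) = f x := by
      intro n
      have h2 := hf (x - cq n x) (cq_sub_compact n x)
      rw [map_sub, sub_eq_zero] at h2
      exact h2.symm
    simp only [h1]
    exact tendsto_const_nhds
  · intro m f d hd x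
    have h1 : Tendsto (fun n => (Matrix.of fun k l => f k l (cq n x) : Matrix (Fin m) (Fin m) ℂ))
        (hyperfilter ℕ : Filter ℕ) (𝓝 (Matrix.of fun k l => S2 (f k l) x)) :=
      tendsto_pi_nhds.2 (fun k => tendsto_pi_nhds.2 (fun l => S2_tendsto (f k l) x))
    have h2 := (continuous_norm.tendsto _).comp h1
    refine le_of_tendsto h2 (Eventually.of_forall (fun n => ?_))
    refine (hd (cq n x)).trans ?_
    rcases le_or_gt 0 d with h3 | h3
    · exact mul_le_mul_of_nonneg_left (cq_norm n x) h3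
    · have h4 := (norm_nonneg _).trans (hd x)
      have h5 : ‖x‖ = 0 := by
        by_contra hc
        have h6 : 0 < ‖x‖ := lt_of_le_of_ne (norm_nonneg x) (Ne.symm hc)
        have h7 := mul_neg_of_neg_of_pos h3 h6
        linarith
      have h8 : ‖cq n x‖ = 0 := le_antisymm ((cq_norm n x).trans h5.le) (norm_nonneg _)
      rw [h5, h8]

end Pool.Agent.Helper234.MaxLR
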