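import Mathlib
import Pool.Agent.Helper234.MaxLR.LDefs

set_option autoImplicit false
open scoped Matrix.Norms.L2Operator

namespace Pool.Agent.Helper234.MaxLR


open scoped InnerProductSpace ComplexConjugate Matrix

section wit
variable {H : Type} [NormedAddCommGroup H] [InnerProductSpace ℂ H]
variable {m : Type} [Fintype m] [DecidableEq m]

theorem wt_inner (x : H) : ((‖x‖ : ℂ)) ^ 2 = ⟪x, x⟫_ℂ :=
  (inner_self_eq_norm_sq_to_K (𝕜 := ℂ) x).symm

theorem wt_quad {S : Type} [Fintype S] (D : Matrix S m ℂ) (ξ : m → H) :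
    ((∑ s, ‖∑ l, D s l • ξ l‖ ^ 2 : ℝ) : ℂ) = ∑ l, ∑ l', (Dᴴ * D) l l' * ⟪ξ l, ξ l'⟫_ℂ := by
  push_cast
  have h1 : ∀ s, ((‖∑ l, D s l • ξ l‖ : ℂ)) ^ 2 =
      ∑ l, ∑ l', conj (D s l) * D s l' * ⟪ξ l, ξ l'⟫_ℂ := by
    intro s
    rw [wt_inner, sum_inner]
    refine Finset.sum_congr rfl fun l _ => ?_
    rw [inner_sum]
    refine Finset.sum_congr rfl fun l' _ => ?_
    rw [inner_smul_left, inner_smul_right]
    ring
  simp only [h1]
  rw [Finset.sum_comm]
  refine Finset.sum_congr rfl fun l _ => ?_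
  rw [Finset.sum_comm]
  refine Finset.sum_congr rfl fun l' _ => ?_
  rw [Matrix.mul_apply, Finset.sum_mul]
  rfl

theorem wt_HV1 {S : Type} [Fintype S] {D : Matrix S m ℂ} {R : Matrix m m ℂ}
    (h : Dᴴ * D + Rᴴ * R = 1) (ξ : m → H) :
    ∑ s, ‖∑ l, D s l • ξ l‖ ^ 2 ≤ ∑ l, ‖ξ l‖ ^ 2 := by
  have h1 := wt_quad D ξ
  have h2 := wt_quad R ξ
  have h3 : ((∑ l, ‖ξ l‖ ^ 2 : ℝ) : ℂ) =
      ∑ l, ∑ l', (1 : Matrix m m ℂ) l l' * ⟪ξ l, ξ l'⟫_ℂ := by
    push_cast
    refine Finset.sum_congr rfl fun s _ => ?_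
    rw [Finset.sum_eq_single s]
    · rw [Matrix.one_apply_eq, one_mul, wt_inner]
    · intro l _ hl
      rw [Matrix.one_apply_ne (Ne.symm hl), zero_mul]
    · intro hs
      exact absurd (Finset.mem_univ s) hs
  rw [← h] at h3
  simp only [Matrix.add_apply, add_mul, Finset.sum_add_distrib] at h3
  rw [← h1, ← h2, ← Complex.ofReal_add, Complex.ofReal_inj] at h3
  have h5 : 0 ≤ ∑ s, ‖∑ l, R s l • ξ l‖ ^ 2 := Finset.sum_nonneg fun s _ => sq_nonneg _
  linarith

theorem wt_HV2 {S : Type} [Fintype S] {C : Matrix m S ℂ} {R : Matrix m m ℂ}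
    (h : C * Cᴴ + R * Rᴴ = 1) (ω : S → H) :
    ∑ k, ‖∑ s, C k s • ω s‖ ^ 2 ≤ ∑ s, ‖ω s‖ ^ 2 := by
  obtain ⟨v, hv⟩ : ∃ v : m → H, ∀ k, v k = ∑ s, C k s • ω s := ⟨_, fun _ => rfl⟩
  obtain ⟨w, hw⟩ : ∃ w : S → H, ∀ s, w s = ∑ k, conj (C k s) • v k := ⟨_, fun _ => rfl⟩
  have h1 : ∑ s, ‖w s‖ ^ 2 ≤ ∑ k, ‖v k‖ ^ 2 := by
    have := wt_HV1 (D := Cᴴ) (R := Rᴴ) (by
      rw [Matrix.conjTranspose_conjTranspose, Matrix.conjTranspose_conjTranspose]; exact h) v
    simp only [hw]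
    exact this
  simp only [← hv]
  have h2 : ((∑ k, ‖v k‖ ^ 2 : ℝ) : ℂ) = ∑ s, ⟪w s, ω s⟫_ℂ := by
    have e1 : ∀ k, ((‖v k‖ : ℂ)) ^ 2 = ∑ s, C k s * ⟪v k, ω s⟫_ℂ := by
      intro k
      have e2 : ⟪v k, v k⟫_ℂ = ⟪v k, ∑ s, C k s • ω s⟫_ℂ := by rw [← hv k]
      rw [wt_inner, e2, inner_sum]
      refine Finset.sum_congr rfl fun s _ => ?_
      rw [inner_smul_right]
    push_cast
    simp only [e1]
    rw [Finset.sum_comm]
    refine Finset.sum_congr rfl fun s _ => ?_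
    rw [hw, sum_inner]
    refine Finset.sum_congr rfl fun k _ => ?_
    rw [inner_smul_left, Complex.conj_conj]
  have h3 : ∑ k, ‖v k‖ ^ 2 ≤ ∑ s, (‖w s‖ ^ 2 + ‖ω s‖ ^ 2) / 2 := by
    have h4 : (∑ k, ‖v k‖ ^ 2 : ℝ) = (∑ s, ⟪w s, ω s⟫_ℂ).re := by
      rw [← h2, Complex.ofReal_re]
    rw [h4, Complex.re_sum]
    refine Finset.sum_le_sum fun s _ => ?_
    have h5 := (Complex.re_le_norm _).trans (norm_inner_le_norm (𝕜 := ℂ) (w s) (ω s))
    nlinarith [sq_nonneg (‖w s‖ - ‖ω s‖)]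
  rw [← Finset.sum_div, Finset.sum_add_distrib] at h3
  linarith

open scoped ComplexOrder MatrixOrder in
theorem wt_sqrt {P : Matrix m m ℂ} (hP : P.PosDef) : ∃ a a' : Matrix m m ℂ, aᴴ = a ∧ a'ᴴ = a' ∧
    a * a = P ∧ a' * a = 1 ∧ a * a' = 1 := by
  have h1 := CFC.sqrt_mul_sqrt_self P hP.posSemidef.nonneg
  have h2 : (CFC.sqrt P).PosSemidef := Matrix.nonneg_iff_posSemidef.1 (CFC.sqrt_nonneg P)
  have h3 : IsUnit (CFC.sqrt P) := by
    have h4 : IsUnit ((CFC.sqrt P) ^ 2) := by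
      rw [sq, h1]
      exact hP.isUnit
    exact (isUnit_pow_iff two_ne_zero).1 h4
  have h5 := (Matrix.isUnit_iff_isUnit_det _).1 h3
  refine ⟨CFC.sqrt P, (CFC.sqrt P)⁻¹, h2.isHermitian, ?_, h1, Matrix.nonsing_inv_mul _ h5,
    Matrix.mul_nonsing_inv _ h5⟩
  rw [Matrix.conjTranspose_nonsing_inv, h2.isHermitian]

theorem wt_scale (y : H →L[ℂ] H) (α β : EuclideanSpace ℂ m) :
    ∃ (y' : H →L[ℂ] H) (α' β' : EuclideanSpace ℂ m), ‖y'‖ ≤ 1 ∧
      ‖α'‖ ^ 2 ≤ ‖y‖ * ‖α‖ * ‖β‖ ∧ ‖β'‖ ^ 2 ≤ ‖y‖ * ‖α‖ * ‖β‖ ∧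
      ∀ i j, (α' i * β' j) • y' = (α i * β j) • y := by
  obtain ⟨t, ht⟩ : ∃ t, t = ‖y‖ * ‖α‖ * ‖β‖ := ⟨_, rfl⟩
  rw [← ht]
  by_cases h0 : t = 0
  · refine ⟨0, 0, 0, by simp, by simp [h0], by simp [h0], fun i j => ?_⟩
    rw [smul_zero]
    rw [h0] at ht
    rcases mul_eq_zero.1 ht.symm with h | h
    · rcases mul_eq_zero.1 h with h | h
      · rw [norm_eq_zero.1 h, smul_zero]
      · rw [norm_eq_zero.1 h]
        simp
    · rw [norm_eq_zero.1 h]
      simp
  · have hy : ‖y‖ ≠ 0 := by rintro h; apply h0; rw [ht, h]; ring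
    have hα : ‖α‖ ≠ 0 := by rintro h; apply h0; rw [ht, h]; ring
    have hβ : ‖β‖ ≠ 0 := by rintro h; apply h0; rw [ht, h]; ring
    have ht0 : 0 ≤ t := by rw [ht]; positivity
    have hs : Real.sqrt t * Real.sqrt t = t := Real.mul_self_sqrt ht0
    refine ⟨((‖y‖⁻¹ : ℝ) : ℂ) • y, ((Real.sqrt t / ‖α‖ : ℝ) : ℂ) • α,
      ((Real.sqrt t / ‖β‖ : ℝ) : ℂ) • β, ?_, ?_, ?_, fun i j => ?_⟩
    · rw [norm_smul, Complex.norm_real, norm_inv, norm_norm, inv_mul_cancel₀ hy]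
    · rw [norm_smul, Complex.norm_real, norm_div, norm_norm, div_mul_cancel₀ _ hα, Real.norm_eq_abs,
        sq_abs, Real.sq_sqrt ht0]
    · rw [norm_smul, Complex.norm_real, norm_div, norm_norm, div_mul_cancel₀ _ hβ, Real.norm_eq_abs,
        sq_abs, Real.sq_sqrt ht0]
    · rw [PiLp.smul_apply, PiLp.smul_apply, smul_smul]
      congr 1
      have e : (Real.sqrt t / ‖α‖) * (Real.sqrt t / ‖β‖) * ‖y‖⁻¹ = 1 := by
        have : (Real.sqrt t / ‖α‖) * (Real.sqrt t / ‖β‖) * ‖y‖⁻¹ =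
          (Real.sqrt t * Real.sqrt t) / (‖y‖ * ‖α‖ * ‖β‖) := by
          field_simp
        rw [this, hs, ← ht, div_self h0]
      have e' : (((Real.sqrt t / ‖α‖ : ℝ) : ℂ)) * ((Real.sqrt t / ‖β‖ : ℝ) : ℂ) * ((‖y‖⁻¹ : ℝ) : ℂ) = 1 := by
        rw [← Complex.ofReal_mul, ← Complex.ofReal_mul, e, Complex.ofReal_one]
      rw [smul_eq_mul, smul_eq_mul]
      linear_combination (α i * β j) * e'

theorem wt_tr {S : Type} [Fintype S] {W : Type} [AddCommGroup W] [Module ℂ W]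
    (p q : Matrix m m ℂ) (C : Matrix m S ℂ) (D : Matrix S m ℂ)
    (y : S → W) (i j : m) : ∑ k, ∑ l, (p i k * q l j) • (∑ s, (C k s * D s l) • y s) =
      ∑ s, ((p * C) i s * (D * q) s j) • y s := by
  have h1 : ∀ s, ((p * C) i s * (D * q) s j) • y s =
      ∑ k, ∑ l, (p i k * q l j) • (C k s * D s l) • y s := by
    intro s
    rw [Matrix.mul_apply, Matrix.mul_apply, Finset.sum_mul_sum, Finset.sum_smul]
    refine Finset.sum_congr rfl fun k _ => ?_
    rw [Finset.sum_smul]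
    refine Finset.sum_congr rfl fun l _ => ?_
    rw [smul_smul]
    congr 1
    ring
  simp only [h1]
  symm
  rw [Finset.sum_comm]
  refine Finset.sum_congr rfl fun k _ => ?_
  rw [Finset.sum_comm]
  exact Finset.sum_congr rfl fun l _ => Finset.smul_sum.symm

theorem wt_diag {a : Matrix m m ℂ} (ha : aᴴ = a) (i : m) :
    (a * a) i i = ((∑ k, ‖a k i‖ ^ 2 : ℝ) : ℂ) := by
  rw [Matrix.mul_apply]
  push_cast
  refine Finset.sum_congr rfl fun k _ => ?_
  have h1 : a i k = conj (a k i) := by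
    have := congrFun (congrFun ha i) k
    rw [← this]
    rfl
  rw [h1, mul_comm, Complex.mul_conj, Complex.normSq_eq_norm_sq]
  push_cast
  rfl

theorem wt_diag1 {S : Type} [Fintype S] (A : Matrix m S ℂ) (i : m) :
    (A * Aᴴ) i i = ((∑ s, ‖A i s‖ ^ 2 : ℝ) : ℂ) := by
  rw [Matrix.mul_apply]
  push_cast
  refine Finset.sum_congr rfl fun k _ => ?_
  show A i k * conj (A i k) = _
  rw [Complex.mul_conj, Complex.normSq_eq_norm_sq]
  push_cast
  rfl

theorem wt_diag2 {S : Type} [Fintype S] (B : Matrix S m ℂ) (i : m) :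
    (Bᴴ * B) i i = ((∑ s, ‖B s i‖ ^ 2 : ℝ) : ℂ) := by
  rw [Matrix.mul_apply]
  push_cast
  refine Finset.sum_congr rfl fun k _ => ?_
  show conj (B k i) * B k i = _
  rw [mul_comm, Complex.mul_conj, Complex.normSq_eq_norm_sq]
  push_cast
  rfl

/-- inverse square root normalisation -/
theorem wt_norm {M a a' : Matrix m m ℂ} {η : ℝ} (hη : 0 < η) (ha' : a'ᴴ = a')
    (haa : a * a = M + (η : ℂ) • (1 : Matrix m m ℂ)) (h1 : a' * a = 1) (h2 : a * a' = 1) :
    a' * M * a' + (((Real.sqrt η : ℝ) : ℂ) • a') * (((Real.sqrt η : ℝ) : ℂ) • a')ᴴ = 1 := by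
  have e1 : (((Real.sqrt η : ℝ) : ℂ) • a') * (((Real.sqrt η : ℝ) : ℂ) • a')ᴴ =
      (η : ℂ) • (a' * a') := by
    rw [Matrix.conjTranspose_smul, ha', smul_mul_assoc, mul_smul_comm, smul_smul]
    congr 1
    show _ * conj _ = _
    rw [Complex.conj_ofReal, ← Complex.ofReal_mul, Real.mul_self_sqrt hη.le]
  have e2 : a' * (a * a) * a' = 1 := by
    calc a' * (a * a) * a' = (a' * a) * (a * a') := by noncomm_ring
      _ = 1 := by rw [h1, h2, one_mul]
  rw [e1]
  rw [haa, mul_add, add_mul, mul_smul_comm, smul_mul_assoc, mul_one] at e2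
  exact e2

open scoped ComplexOrder in
theorem wt_claim (E : Submodule ℂ (H →L[ℂ] H)) (φt : (H →L[ℂ] H) →ₗ[ℂ] Matrix m m ℂ) {lam : ℝ}
    (hlam : 0 < lam)
    (hφm : ∀ x : m → m → (H →L[ℂ] H), (∀ i j, x i j ∈ E) →
      (∀ ξ : m → H, ∑ i, ‖∑ j, x i j (ξ j)‖ ^ 2 ≤ ∑ j, ‖ξ j‖ ^ 2) →
      ∀ ξ : m → EuclideanSpace ℂ m,
        ∑ i, ‖∑ j, Matrix.toEuclideanCLM (𝕜 := ℂ) (φt (x i j)) (ξ j)‖ ^ 2 ≤
          lam ^ 2 * ∑ j, ‖ξ j‖ ^ 2)
    {S : Type} [Fintype S] (y : S → (H →L[ℂ] H)) (α β : S → EuclideanSpace ℂ m)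
    (hy : ∀ s, ‖y s‖ ≤ 1) (z : m → m → (H →L[ℂ] H))
    (hz : ∀ i j, z i j = ∑ s, (α s i * β s j) • y s) (hzE : ∀ i j, z i j ∈ E) {r : ℝ}
    (hα : ∑ s, ‖α s‖ ^ 2 ≤ r) (hβ : ∑ s, ‖β s‖ ^ 2 ≤ r) :
    ‖∑ i, ∑ j, φt (z i j) i j‖ ≤ lam * r := by
  refine le_of_forall_pos_le_add fun ε hε => ?_
  obtain ⟨η, hη, hη2⟩ : ∃ η : ℝ, 0 < η ∧ lam * (η * Fintype.card m) ≤ ε := by
    refine ⟨ε / (lam * (Fintype.card m + 1)), by positivity, ?_⟩
    have h0 : (0 : ℝ) ≤ Fintype.card m := Nat.cast_nonneg _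
    rw [show lam * (ε / (lam * (Fintype.card m + 1)) * Fintype.card m) =
      ε * (Fintype.card m / (Fintype.card m + 1)) by field_simp]
    have : (Fintype.card m : ℝ) / (Fintype.card m + 1) ≤ 1 := by
      rw [div_le_one (by positivity)]
      linarith
    nlinarith
  obtain ⟨A, hA⟩ : ∃ A : Matrix m S ℂ, ∀ i s, A i s = α s i := ⟨Matrix.of fun i s => α s i,
    fun _ _ => rfl⟩
  obtain ⟨B, hB⟩ : ∃ B : Matrix S m ℂ, ∀ s j, B s j = β s j := ⟨Matrix.of fun s j => β s j,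
    fun _ _ => rfl⟩
  have hηC : (0 : ℂ) < (η : ℂ) := by exact_mod_cast hη
  have hP : (A * Aᴴ + (η : ℂ) • (1 : Matrix m m ℂ)).PosDef :=
    Matrix.PosDef.posSemidef_add (Matrix.posSemidef_self_mul_conjTranspose A)
      (Matrix.PosDef.one.smul hηC)
  have hQ : (Bᴴ * B + (η : ℂ) • (1 : Matrix m m ℂ)).PosDef :=
    Matrix.PosDef.posSemidef_add (Matrix.posSemidef_conjTranspose_mul_self B)
      (Matrix.PosDef.one.smul hηC)
  obtain ⟨a, a', ha, ha', haa, h1, h2⟩ := wt_sqrt hP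
  obtain ⟨b, b', hb, hb', hbb, h3, h4⟩ := wt_sqrt hQ
  have hC : (a' * A) * (a' * A)ᴴ + (((Real.sqrt η : ℝ) : ℂ) • a') *
      (((Real.sqrt η : ℝ) : ℂ) • a')ᴴ = 1 := by
    have := wt_norm hη ha' haa h1 h2
    have e : (a' * A) * (Aᴴ * a') = a' * (A * Aᴴ) * a' := by simp only [Matrix.mul_assoc]
    rw [Matrix.conjTranspose_mul, ha', e]
    exact this
  have hD : (B * b')ᴴ * (B * b') + (((Real.sqrt η : ℝ) : ℂ) • b')ᴴ *
      (((Real.sqrt η : ℝ) : ℂ) • b') = 1 := by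
    have := wt_norm hη hb' hbb h3 h4
    have e1 : (((Real.sqrt η : ℝ) : ℂ) • b')ᴴ = ((Real.sqrt η : ℝ) : ℂ) • b' := by
      rw [Matrix.conjTranspose_smul, hb']
      congr 1
      exact Complex.conj_ofReal _
    rw [e1] at this ⊢
    have e : (b' * Bᴴ) * (B * b') = b' * (Bᴴ * B) * b' := by simp only [Matrix.mul_assoc]
    rw [Matrix.conjTranspose_mul, hb', e]
    exact this
  obtain ⟨x, hx⟩ : ∃ x : m → m → (H →L[ℂ] H),
    ∀ k l, x k l = ∑ s, ((a' * A) k s * (B * b') s l) • y s := ⟨_, fun _ _ => rfl⟩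
  have hz' : ∀ i j, z i j = ∑ s, (A i s * B s j) • y s := fun i j => by
    rw [hz]
    simp only [hA, hB]
  have hxE : ∀ k l, x k l ∈ E := by
    intro k l
    rw [hx, ← wt_tr a' b' A B y k l]
    refine Submodule.sum_mem _ fun i _ => Submodule.sum_mem _ fun j _ => Submodule.smul_mem _ _ ?_
    rw [← hz']
    exact hzE i j
  have hzx : ∀ i j, z i j = ∑ k, ∑ l, (a i k * b l j) • x k l := by
    intro i j
    simp only [hx]
    rw [wt_tr a b (a' * A) (B * b') y i j, ← Matrix.mul_assoc, h2, Matrix.one_mul,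
      Matrix.mul_assoc, h3, Matrix.mul_one]
    exact hz' i j
  have hxle : ∀ ξ : m → H, ∑ i, ‖∑ j, x i j (ξ j)‖ ^ 2 ≤ ∑ j, ‖ξ j‖ ^ 2 := by
    intro ξ
    have e1 : ∀ k, ∑ l, x k l (ξ l) =
        ∑ s, (a' * A) k s • y s (∑ l, (B * b') s l • ξ l) := by
      intro k
      simp only [hx, map_sum, Finset.smul_sum]
      rw [Finset.sum_comm]
      refine Finset.sum_congr rfl fun l _ => ?_
      rw [ContinuousLinearMap.sum_apply]
      refine Finset.sum_congr rfl fun s _ => ?_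
      rw [map_smul, smul_smul]
      rfl
    simp only [e1]
    refine (wt_HV2 hC _).trans (le_trans ?_ (wt_HV1 hD ξ))
    refine Finset.sum_le_sum fun s _ => ?_
    have : ‖y s (∑ l, (B * b') s l • ξ l)‖ ≤ ‖∑ l, (B * b') s l • ξ l‖ :=
      ((y s).le_opNorm _).trans (mul_le_of_le_one_left (norm_nonneg _) (hy s))
    gcongr
  obtain ⟨ξ, hξ⟩ : ∃ ξ : m → EuclideanSpace ℂ m, ∀ l, ξ l = WithLp.toLp 2 (fun j => b l j) :=
    ⟨_, fun _ => rfl⟩
  obtain ⟨u, hu⟩ : ∃ u : m → EuclideanSpace ℂ m, ∀ k, u k = WithLp.toLp 2 (fun i => conj (a i k)) :=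
    ⟨_, fun _ => rfl⟩
  obtain ⟨w, hw⟩ : ∃ w : m → EuclideanSpace ℂ m, ∀ k, w k =
    ∑ l, Matrix.toEuclideanCLM (𝕜 := ℂ) (φt (x k l)) (ξ l) := ⟨_, fun _ => rfl⟩
  have hW := hφm x hxE hxle ξ
  simp only [← hw] at hW
  have hid : ∑ i, ∑ j, φt (z i j) i j = ∑ k, ⟪u k, w k⟫_ℂ := by
    have e1 : ∀ k, ⟪u k, w k⟫_ℂ = ∑ i, ∑ l, ∑ j, a i k * b l j * φt (x k l) i j := by
      intro k
      rw [PiLp.inner_apply]
      refine Finset.sum_congr rfl fun i _ => ?_
      have e2 : w k i = ∑ l, ∑ j, φt (x k l) i j * b l j := by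
        rw [hw]
        rw [WithLp.ofLp_sum, Finset.sum_apply]
        refine Finset.sum_congr rfl fun l _ => ?_
        rw [Matrix.ofLp_toEuclideanCLM, hξ]
        rfl
      rw [RCLike.inner_apply, e2, hu, Finset.sum_mul]
      refine Finset.sum_congr rfl fun l _ => ?_
      rw [Finset.sum_mul]
      refine Finset.sum_congr rfl fun j _ => ?_
      show φt (x k l) i j * b l j * conj (conj (a i k)) = _
      rw [Complex.conj_conj]
      ring
    simp only [e1]
    have e3 : ∀ i j, φt (z i j) i j = ∑ k, ∑ l, a i k * b l j * φt (x k l) i j := by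
      intro i j
      rw [hzx, map_sum, Matrix.sum_apply]
      refine Finset.sum_congr rfl fun k _ => ?_
      rw [map_sum, Matrix.sum_apply]
      refine Finset.sum_congr rfl fun l _ => ?_
      rw [map_smul, Matrix.smul_apply, smul_eq_mul]
    simp only [e3]
    -- Σ_i Σ_j Σ_k Σ_l = Σ_k Σ_i Σ_l Σ_j
    have e4 : ∀ i, ∑ j, ∑ k, ∑ l, a i k * b l j * φt (x k l) i j =
        ∑ k, ∑ l, ∑ j, a i k * b l j * φt (x k l) i j := by
      intro i
      rw [Finset.sum_comm]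
      exact Finset.sum_congr rfl fun k _ => Finset.sum_comm
    simp only [e4]
    exact Finset.sum_comm
  have hu2 : ∑ k, ‖u k‖ ^ 2 ≤ r + η * Fintype.card m := by
    have e1 : ∀ k, ‖u k‖ ^ 2 = ∑ s, ‖α s k‖ ^ 2 + η := by
      intro k
      have e2 : ‖u k‖ ^ 2 = ∑ i, ‖a i k‖ ^ 2 := by
        rw [hu, EuclideanSpace.norm_sq_eq]
        refine Finset.sum_congr rfl fun i _ => ?_
        show ‖conj (a i k)‖ ^ 2 = _
        rw [RCLike.norm_conj]
      have e3 := wt_diag ha k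
      rw [haa, Matrix.add_apply, wt_diag1, Matrix.smul_apply, Matrix.one_apply_eq, smul_eq_mul,
        mul_one, ← Complex.ofReal_add, Complex.ofReal_inj] at e3
      rw [e2, ← e3]
      simp only [hA]
    simp only [e1]
    rw [Finset.sum_add_distrib, Finset.sum_comm, Finset.sum_const, Finset.card_univ, nsmul_eq_mul]
    have e4 : ∑ s, ∑ k, ‖α s k‖ ^ 2 = ∑ s, ‖α s‖ ^ 2 :=
      Finset.sum_congr rfl fun s _ => (EuclideanSpace.norm_sq_eq _).symm
    rw [e4]
    linarith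
  have hξ2 : ∑ l, ‖ξ l‖ ^ 2 ≤ r + η * Fintype.card m := by
    have e0 : ∀ l, ‖ξ l‖ ^ 2 = ∑ j, ‖b l j‖ ^ 2 := by
      intro l
      rw [hξ, EuclideanSpace.norm_sq_eq]
    simp only [e0]
    rw [Finset.sum_comm]
    have e1 : ∀ j, ∑ l, ‖b l j‖ ^ 2 = ∑ s, ‖β s j‖ ^ 2 + η := by
      intro j
      have e3 := wt_diag hb j
      rw [hbb, Matrix.add_apply, wt_diag2, Matrix.smul_apply, Matrix.one_apply_eq, smul_eq_mul,
        mul_one, ← Complex.ofReal_add, Complex.ofReal_inj] at e3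
      rw [← e3]
      simp only [hB]
    simp only [e1]
    rw [Finset.sum_add_distrib, Finset.sum_comm, Finset.sum_const, Finset.card_univ, nsmul_eq_mul]
    have e4 : ∑ s, ∑ k, ‖β s k‖ ^ 2 = ∑ s, ‖β s‖ ^ 2 :=
      Finset.sum_congr rfl fun s _ => (EuclideanSpace.norm_sq_eq _).symm
    rw [e4]
    linarith
  have hW2 : ∑ k, ‖w k‖ ^ 2 ≤ lam ^ 2 * (r + η * Fintype.card m) := hW.trans (by gcongr)
  have hfin : ‖∑ k, ⟪u k, w k⟫_ℂ‖ ≤ lam * (r + η * Fintype.card m) := by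
    refine (norm_sum_le _ _).trans ?_
    have e1 : ∀ k ∈ Finset.univ, ‖⟪u k, w k⟫_ℂ‖ ≤ (lam * ‖u k‖ ^ 2 + lam⁻¹ * ‖w k‖ ^ 2) / 2 := by
      intro k _
      refine (norm_inner_le_norm _ _).trans ?_
      have e2 : (lam * ‖u k‖ ^ 2 + lam⁻¹ * ‖w k‖ ^ 2) / 2 - ‖u k‖ * ‖w k‖ =
        lam / 2 * (‖u k‖ - lam⁻¹ * ‖w k‖) ^ 2 := by
        field_simp
        ring
      have e3 : 0 ≤ lam / 2 * (‖u k‖ - lam⁻¹ * ‖w k‖) ^ 2 := by positivity
      linarith
    refine (Finset.sum_le_sum e1).trans ?_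
    rw [← Finset.sum_div, Finset.sum_add_distrib, ← Finset.mul_sum, ← Finset.mul_sum]
    have e4 : lam * ∑ k, ‖u k‖ ^ 2 ≤ lam * (r + η * Fintype.card m) := by gcongr
    have e5 : lam⁻¹ * ∑ k, ‖w k‖ ^ 2 ≤ lam * (r + η * Fintype.card m) := by
      calc lam⁻¹ * ∑ k, ‖w k‖ ^ 2 ≤ lam⁻¹ * (lam ^ 2 * (r + η * Fintype.card m)) := by gcongr
        _ = _ := by field_simp
    linarith
  rw [hid]
  refine hfin.trans ?_
  rw [mul_add]
  linarith


/-! the seminorm -/

/-- value of a representation -/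
noncomputable def wrep (l : List ((H →L[ℂ] H) × EuclideanSpace ℂ m × EuclideanSpace ℂ m)) :
    m → m → (H →L[ℂ] H) :=
  (l.map fun t => fun i j => (t.2.1 i * t.2.2 j) • t.1).sum

/-- cost of a representation -/
noncomputable def wcost (l : List ((H →L[ℂ] H) × EuclideanSpace ℂ m × EuclideanSpace ℂ m)) : ℝ :=
  (l.map fun t => ‖t.1‖ * ‖t.2.1‖ * ‖t.2.2‖).sum

theorem wcost_nonneg (l : List ((H →L[ℂ] H) × EuclideanSpace ℂ m × EuclideanSpace ℂ m)) :
    0 ≤ wcost l := by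
  unfold wcost
  refine List.sum_nonneg fun x hx => ?_
  rw [List.mem_map] at hx
  obtain ⟨t, -, rfl⟩ := hx
  positivity

theorem wrep_append (l l' : List ((H →L[ℂ] H) × EuclideanSpace ℂ m × EuclideanSpace ℂ m)) :
    wrep (l ++ l') = wrep l + wrep l' := by
  unfold wrep
  rw [List.map_append, List.sum_append]

theorem wcost_append (l l' : List ((H →L[ℂ] H) × EuclideanSpace ℂ m × EuclideanSpace ℂ m)) :
    wcost (l ++ l') = wcost l + wcost l' := by
  unfold wcost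
  rw [List.map_append, List.sum_append]

theorem wrep_smul (c : ℂ) (l : List ((H →L[ℂ] H) × EuclideanSpace ℂ m × EuclideanSpace ℂ m)) :
    wrep (l.map fun t => (c • t.1, t.2)) = c • wrep l ∧
      wcost (l.map fun t => (c • t.1, t.2)) = ‖c‖ * wcost l := by
  unfold wrep wcost
  induction l with
  | nil => simp
  | cons t l ih =>
    simp only [List.map_cons, List.sum_cons, smul_add, mul_add] at ih ⊢
    rw [ih.1, ih.2]
    refine ⟨?_, ?_⟩
    · congr 1
      funext i j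
      simp only [Pi.smul_apply]
      rw [smul_smul, smul_smul, mul_comm]
    · rw [norm_smul]
      ring

theorem wrep_exists (z : m → m → (H →L[ℂ] H)) :
    ∃ l : List ((H →L[ℂ] H) × EuclideanSpace ℂ m × EuclideanSpace ℂ m), wrep l = z := by
  classical
  have hsum : ∀ (s : Finset (m × m)) (f : m × m → (m → m → (H →L[ℂ] H))),
      (∀ p ∈ s, ∃ l : List ((H →L[ℂ] H) × EuclideanSpace ℂ m × EuclideanSpace ℂ m), wrep l = f p) →
      ∃ l : List ((H →L[ℂ] H) × EuclideanSpace ℂ m × EuclideanSpace ℂ m),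
        wrep l = ∑ p ∈ s, f p := by
    intro s f hf
    induction s using Finset.induction_on with
    | empty => exact ⟨[], by simp [wrep]⟩
    | insert p s hp ih =>
      obtain ⟨l1, h1⟩ := hf p (Finset.mem_insert_self _ _)
      obtain ⟨l2, h2⟩ := ih fun q hq => hf q (Finset.mem_insert_of_mem hq)
      exact ⟨l1 ++ l2, by rw [wrep_append, h1, h2, Finset.sum_insert hp]⟩
  obtain ⟨l, hl⟩ := hsum Finset.univ (fun p => fun i j => if i = p.1 ∧ j = p.2 then z p.1 p.2 else 0)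
    (fun p _ => ⟨[(z p.1 p.2, EuclideanSpace.single p.1 1, EuclideanSpace.single p.2 1)], by
      unfold wrep
      simp only [List.map_cons, List.map_nil, List.sum_cons, List.sum_nil, add_zero]
      funext i j
      rw [EuclideanSpace.single_apply, EuclideanSpace.single_apply]
      by_cases h1 : i = p.1
      · by_cases h2 : j = p.2
        · simp [h1, h2]
        · simp [h2]
      · simp [h1]⟩)
  refine ⟨l, ?_⟩
  rw [hl]
  funext i j
  rw [Finset.sum_apply, Finset.sum_apply, Finset.sum_eq_single (i, j)]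
  · simp
  · intro p _ hp
    rw [if_neg]
    rintro ⟨h1, h2⟩
    exact hp (Prod.ext h1.symm h2.symm)
  · intro h
    exact absurd (Finset.mem_univ _) h

/-- the set of costs -/
def wset (z : m → m → (H →L[ℂ] H)) : Set ℝ :=
  {r | ∃ l : List ((H →L[ℂ] H) × EuclideanSpace ℂ m × EuclideanSpace ℂ m),
    wrep l = z ∧ wcost l = r}

theorem wset_ne (z : m → m → (H →L[ℂ] H)) : (wset z).Nonempty := by
  obtain ⟨l, hl⟩ := wrep_exists z
  exact ⟨_, l, hl, rfl⟩

theorem wset_bdd (z : m → m → (H →L[ℂ] H)) : BddBelow (wset z) := by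
  refine ⟨0, ?_⟩
  rintro r ⟨l, -, rfl⟩
  exact wcost_nonneg l

theorem wg_le (l : List ((H →L[ℂ] H) × EuclideanSpace ℂ m × EuclideanSpace ℂ m)) :
    sInf (wset (wrep l)) ≤ wcost l := csInf_le (wset_bdd _) ⟨l, rfl, rfl⟩

/-- the seminorm -/
noncomputable def wsemi (H : Type) [NormedAddCommGroup H] [InnerProductSpace ℂ H]
    (m : Type) [Fintype m] [DecidableEq m] (lam : ℝ) (hlam : 0 < lam) :
    Seminorm ℂ (m → m → (H →L[ℂ] H)) :=
  Seminorm.ofSMulLE (fun z => lam * sInf (wset z))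
    (by
      have h1 : sInf (wset (0 : m → m → (H →L[ℂ] H))) ≤ 0 := by
        have := wg_le ([] : List ((H →L[ℂ] H) × EuclideanSpace ℂ m × EuclideanSpace ℂ m))
        simpa [wrep, wcost] using this
      have h2 : 0 ≤ sInf (wset (0 : m → m → (H →L[ℂ] H))) := by
        refine Real.sInf_nonneg ?_
        rintro r ⟨l, -, rfl⟩
        exact wcost_nonneg l
      rw [le_antisymm h1 h2, mul_zero])
    (by
      intro z w
      rw [← mul_add]
      refine mul_le_mul_of_nonneg_left ?_ hlam.le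
      refine le_of_forall_pos_lt_add fun ε hε => ?_
      obtain ⟨r1, ⟨l1, h1, rfl⟩, hr1⟩ := exists_lt_of_csInf_lt (wset_ne z)
        (show sInf (wset z) < sInf (wset z) + ε / 2 by linarith)
      obtain ⟨r2, ⟨l2, h2, rfl⟩, hr2⟩ := exists_lt_of_csInf_lt (wset_ne w)
        (show sInf (wset w) < sInf (wset w) + ε / 2 by linarith)
      have h3 := wg_le (l1 ++ l2)
      rw [wrep_append, h1, h2, wcost_append] at h3
      linarith)
    (by
      intro c z
      rw [← mul_assoc, mul_comm ‖c‖, mul_assoc]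
      refine mul_le_mul_of_nonneg_left ?_ hlam.le
      rw [← smul_eq_mul, ← Real.sInf_smul_of_nonneg (norm_nonneg c)]
      refine le_csInf ((wset_ne z).image _) ?_
      rintro _ ⟨r, ⟨l, h1, rfl⟩, rfl⟩
      obtain ⟨h2, h3⟩ := wrep_smul c l
      have h4 := wg_le (l.map fun t => (c • t.1, t.2))
      rw [h2, h3, h1] at h4
      exact h4)

theorem wsemi_apply (lam : ℝ) (hlam : 0 < lam) (z : m → m → (H →L[ℂ] H)) :
    wsemi H m lam hlam z = lam * sInf (wset z) := rfl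

end wit

/-- Wittstock-type extension: a map from a subspace of `B(H)` into a matrix algebra whose
amplifications are bounded by `lam` extends to a linear map on `B(H)` of norm at most `lam`. -/
theorem wittstock {H : Type} [NormedAddCommGroup H] [InnerProductSpace ℂ H] [CompleteSpace H]
    (E : Submodule ℂ (H →L[ℂ] H)) {m : Type} [Fintype m] [DecidableEq m]
    (φ : E →ₗ[ℂ] Matrix m m ℂ) (lam : ℝ) (hlam : 0 < lam)
    (hφ : ∀ (n : ℕ) (x : Matrix (Fin n) (Fin n) E),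
      OpLE (fun i j => ((x i j : E) : H →L[ℂ] H)) 1 →
      OpLE (fun i j => Matrix.toEuclideanCLM (𝕜 := ℂ) (φ (x i j))) lam) :
    ∃ Φ : (H →L[ℂ] H) →ₗ[ℂ] Matrix m m ℂ, (∀ x : E, Φ x = φ x) ∧ ∀ x, ‖Φ x‖ ≤ lam * ‖x‖ := by
  obtain ⟨φt, hφt⟩ := LinearMap.exists_extend φ
  have hφe : ∀ (x : H →L[ℂ] H) (hx : x ∈ E), φt x = φ ⟨x, hx⟩ := fun x hx => by
    rw [← hφt]; rfl
  -- amplification bound for the index type `m`
  have hφm : ∀ x : m → m → (H →L[ℂ] H), (∀ i j, x i j ∈ E) →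
      (∀ ξ : m → H, ∑ i, ‖∑ j, x i j (ξ j)‖ ^ 2 ≤ ∑ j, ‖ξ j‖ ^ 2) →
      ∀ ξ : m → EuclideanSpace ℂ m,
        ∑ i, ‖∑ j, Matrix.toEuclideanCLM (𝕜 := ℂ) (φt (x i j)) (ξ j)‖ ^ 2 ≤
          lam ^ 2 * ∑ j, ‖ξ j‖ ^ 2 := by
    intro x hx hx1 ξ
    obtain ⟨e⟩ : Nonempty (m ≃ Fin (Fintype.card m)) := ⟨Fintype.equivFin m⟩
    have h1 := hφ (Fintype.card m) (Matrix.of fun p q => ⟨x (e.symm p) (e.symm q), hx _ _⟩)
      ⟨zero_le_one, fun ζ => by
        rw [one_pow, one_mul]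
        have h2 := hx1 fun j => ζ (e j)
        rw [← Equiv.sum_comp e.symm] at h2
        rw [← Equiv.sum_comp e fun j => ‖ζ j‖ ^ 2]
        refine le_trans (le_of_eq ?_) h2
        refine Finset.sum_congr rfl fun p _ => ?_
        rw [← Equiv.sum_comp e]
        refine congrArg (fun v => ‖v‖ ^ 2) (Finset.sum_congr rfl fun q _ => ?_)
        simp⟩
    have h3 := h1.2 fun p => ξ (e.symm p)
    rw [← Equiv.sum_comp e] at h3
    rw [← Equiv.sum_comp e.symm fun j => ‖ξ j‖ ^ 2]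
    refine le_trans (le_of_eq ?_) h3
    refine Finset.sum_congr rfl fun p _ => ?_
    rw [← Equiv.sum_comp e.symm]
    refine congrArg (fun v => ‖v‖ ^ 2) (Finset.sum_congr rfl fun q _ => ?_)
    rw [hφe _ (hx _ _)]
    simp
  -- the functional
  let W : Submodule ℂ (m → m → (H →L[ℂ] H)) :=
    { carrier := {z | ∀ i j, z i j ∈ E}
      add_mem' := fun {a b} ha hb i j => E.add_mem (ha i j) (hb i j)
      zero_mem' := fun i j => E.zero_mem
      smul_mem' := fun c z hz i j => E.smul_mem c (hz i j) }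
  let F : (m → m → (H →L[ℂ] H)) →ₗ[ℂ] ℂ :=
    { toFun := fun z => ∑ i, ∑ j, φt (z i j) i j
      map_add' := fun z w => by
        simp only [Pi.add_apply, map_add, Matrix.add_apply, Finset.sum_add_distrib]
      map_smul' := fun c z => by
        simp only [Pi.smul_apply, map_smul, Matrix.smul_apply, Finset.smul_sum, RingHom.id_apply] }
  have hF : ∀ z, F z = ∑ i, ∑ j, φt (z i j) i j := fun z => rfl
  have hbound : ∀ z : W, ‖(F.comp W.subtype) z‖ ≤ wsemi H m lam hlam z := by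
    intro z
    rw [wsemi_apply, ← div_le_iff₀' hlam]
    refine le_csInf (wset_ne _) ?_
    rintro r ⟨l, h1, rfl⟩
    rw [div_le_iff₀' hlam]
    choose y' α' β' q1 q2 q3 q4 using fun s : Fin l.length =>
      wt_scale (l.get s).1 (l.get s).2.1 (l.get s).2.2
    have hcost : wcost l = ∑ s : Fin l.length, ‖(l.get s).1‖ * ‖(l.get s).2.1‖ * ‖(l.get s).2.2‖ := by
      unfold wcost
      rw [← List.sum_ofFn]
      congr 1
      conv_lhs => rw [← List.ofFn_get l]
      rw [List.map_ofFn]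
      rfl
    have hrep : wrep l = ∑ s : Fin l.length, fun i j =>
        ((l.get s).2.1 i * (l.get s).2.2 j) • (l.get s).1 := by
      unfold wrep
      rw [← List.sum_ofFn]
      congr 1
      conv_lhs => rw [← List.ofFn_get l]
      rw [List.map_ofFn]
      rfl
    refine wt_claim E φt hlam hφm y' α' β' q1 z.1 (fun i j => ?_) z.2 ?_ ?_
    · rw [← h1, hrep, Finset.sum_apply, Finset.sum_apply]
      exact Finset.sum_congr rfl fun s _ => (q4 s i j).symm
    · rw [hcost]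
      exact Finset.sum_le_sum fun s _ => q2 s
    · rw [hcost]
      exact Finset.sum_le_sum fun s _ => q3 s
  obtain ⟨G, hG1, hG2⟩ := Module.Dual.exists_extension_of_le_seminorm W (F.comp W.subtype) hbound
  -- the extension
  have hsingle : ∀ (i j : m) (x : H →L[ℂ] H), (fun i' j' => if i' = i ∧ j' = j then x else 0) =
      (Pi.single i (Pi.single j x) : m → m → (H →L[ℂ] H)) := by
    intro i j x
    funext i' j'
    by_cases h1 : i' = i
    · subst h1
      by_cases h2 : j' = j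
      · subst h2; simp
      · simp [h2]
    · simp [h1]
  let Φ : (H →L[ℂ] H) →ₗ[ℂ] Matrix m m ℂ :=
    { toFun := fun x => Matrix.of fun i j => G (Pi.single i (Pi.single j x))
      map_add' := fun x y => by
        ext i j
        simp only [Matrix.of_apply, Matrix.add_apply, Pi.single_add, map_add]
      map_smul' := fun c x => by
        ext i j
        simp only [Matrix.of_apply, Matrix.smul_apply, Pi.single_smul, map_smul, RingHom.id_apply] }
  have hΦ : ∀ x i j, Φ x i j = G (Pi.single i (Pi.single j x)) := fun _ _ _ => rfl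
  refine ⟨Φ, fun x => ?_, fun x => ?_⟩
  · ext i j
    have hmem : (Pi.single i (Pi.single j (x : H →L[ℂ] H)) : m → m → (H →L[ℂ] H)) ∈ W := by
      intro i' j'
      rw [← hsingle]
      simp only
      split_ifs
      · exact x.2
      · exact E.zero_mem
    rw [hΦ]
    have h1 := hG1 ⟨_, hmem⟩
    refine h1.trans ?_
    show F (Pi.single i (Pi.single j (x : H →L[ℂ] H))) = _
    rw [hF, ← hsingle, Finset.sum_eq_single i, Finset.sum_eq_single j]
    · simp only [and_self, if_true]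
      rw [hφe x.1 x.2]
    · intro j' _ hj'
      simp [hj']
    · intro h
      exact absurd (Finset.mem_univ _) h
    · intro i' _ hi'
      simp [hi']
    · intro h
      exact absurd (Finset.mem_univ _) h
  · rw [Matrix.l2_opNorm_def]
    refine ContinuousLinearMap.opNorm_le_bound _ (by positivity) fun v => ?_
    obtain ⟨w, hw⟩ : ∃ w : EuclideanSpace ℂ m, w = WithLp.toLp 2 (Φ x *ᵥ WithLp.ofLp v) := ⟨_, rfl⟩
    show ‖WithLp.toLp 2 (Φ x *ᵥ WithLp.ofLp v)‖ ≤ lam * ‖x‖ * ‖v‖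
    rw [← hw]
    obtain ⟨u, hu⟩ : ∃ u : EuclideanSpace ℂ m, u = WithLp.toLp 2 (fun i => conj (w i)) := ⟨_, rfl⟩
    have hun : ‖u‖ = ‖w‖ := by
      have : ‖u‖ ^ 2 = ‖w‖ ^ 2 := by
        rw [EuclideanSpace.norm_sq_eq, EuclideanSpace.norm_sq_eq]
        refine Finset.sum_congr rfl fun i _ => ?_
        rw [hu]
        show ‖conj (w i)‖ ^ 2 = _
        rw [RCLike.norm_conj]
      exact (sq_eq_sq₀ (norm_nonneg _) (norm_nonneg _)).1 this
    have h1 : ((‖w‖ : ℂ)) ^ 2 = G (wrep [(x, u, v)]) := by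
      have e1 : wrep [(x, u, v)] = ∑ i, ∑ j, (u i * v j) •
          (Pi.single i (Pi.single j x) : m → m → (H →L[ℂ] H)) := by
        unfold wrep
        simp only [List.map_cons, List.map_nil, List.sum_cons, List.sum_nil, add_zero]
        funext i j
        rw [Finset.sum_apply, Finset.sum_apply, Finset.sum_eq_single i, Finset.sum_apply,
          Finset.sum_apply, Finset.sum_eq_single j]
        · rw [← hsingle]
          simp
        · intro j' _ hj'
          rw [← hsingle]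
          simp [Ne.symm hj']
        · intro h
          exact absurd (Finset.mem_univ _) h
        · intro i' _ hi'
          rw [Finset.sum_apply, Finset.sum_apply]
          refine Finset.sum_eq_zero fun j' _ => ?_
          rw [← hsingle]
          simp [Ne.symm hi']
        · intro h
          exact absurd (Finset.mem_univ _) h
      rw [e1, map_sum, wt_inner, PiLp.inner_apply]
      refine Finset.sum_congr rfl fun i _ => ?_
      rw [map_sum, RCLike.inner_apply]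
      have e2 : w i = ∑ j, Φ x i j * v j := by rw [hw]; rfl
      have e4 : w i * conj (w i) = (∑ j, Φ x i j * v j) * conj (w i) := by rw [← e2]
      refine e4.trans ?_
      rw [Finset.sum_mul]
      refine Finset.sum_congr rfl fun j _ => ?_
      rw [map_smul, ← hΦ, smul_eq_mul]
      have e3 : u i = conj (w i) := by rw [hu]
      rw [e3]
      ring
    have h2 : ‖w‖ ^ 2 ≤ lam * (‖x‖ * ‖u‖ * ‖v‖) := by
      have e1 : ‖w‖ ^ 2 = ‖((‖w‖ : ℂ)) ^ 2‖ := by
        rw [norm_pow, Complex.norm_real, norm_norm]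
      rw [e1, h1]
      refine (hG2 _).trans ?_
      rw [wsemi_apply]
      have := wg_le [(x, u, v)]
      have e2 : wcost [(x, u, v)] = ‖x‖ * ‖u‖ * ‖v‖ := by simp [wcost]
      rw [e2] at this
      gcongr
    rw [hun] at h2
    rcases eq_or_lt_of_le (norm_nonneg w) with h0 | h0
    · rw [← h0]; positivity
    · have : ‖w‖ * ‖w‖ ≤ ‖w‖ * (lam * ‖x‖ * ‖v‖) := by nlinarith
      exact le_of_mul_le_mul_left this h0

end Pool.Agent.Helper234.MaxLR
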