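import Mathlib
import Pool.Agent.Helper234.Calkin.Main
import Pool.Agent.Helper234.MaxLR.LDefs
import Pool.Agent.Helper234.MaxLR.Wit
import Pool.Agent.Helper234.MaxLR.Diag
import Pool.Agent.Helper234.MaxLR.Sing
import Pool.Agent.Helper234.MaxLR.Lim

set_option autoImplicit false
open scoped Matrix.Norms.L2Operator

namespace Pool.Agent.Helper234.MaxLR

open Pool.Agent.Helper234.Calkin (Ctr Gap gap_exists emb BH)

/-! ### Scalar matrices -/

theorem scLE_iff {ι : Type} [Fintype ι] [DecidableEq ι] (a : Matrix ι ι ℂ) (c : ℝ) (hc : 0 ≤ c) :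
    ScLE a c ↔ ‖a‖ ≤ c := by
  have hnorm : ∀ ξ : ι → ℂ, ‖(WithLp.toLp 2 (a.mulVec ξ) : EuclideanSpace ℂ ι)‖ ^ 2 =
      ∑ i, ‖∑ j, a i j * ξ j‖ ^ 2 := by
    intro ξ
    rw [EuclideanSpace.norm_sq_eq]
    rfl
  have hnorm2 : ∀ ξ : ι → ℂ, ‖(WithLp.toLp 2 ξ : EuclideanSpace ℂ ι)‖ ^ 2 = ∑ i, ‖ξ i‖ ^ 2 := by
    intro ξ
    rw [EuclideanSpace.norm_sq_eq]
  constructor
  · intro h
    rw [Matrix.cstar_norm_def]
    refine ContinuousLinearMap.opNorm_le_bound _ hc fun x => ?_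
    have h1 := h.2 x.ofLp
    rw [← hnorm, ← hnorm2] at h1
    have h2 : ‖(WithLp.toLp 2 (a.mulVec x.ofLp) : EuclideanSpace ℂ ι)‖ ≤ c * ‖x‖ := by
      have h3 : ‖(WithLp.toLp 2 (a.mulVec x.ofLp) : EuclideanSpace ℂ ι)‖ ^ 2 ≤ (c * ‖x‖) ^ 2 := by
        rw [mul_pow]; exact h1
      exact (abs_le_of_sq_le_sq' h3 (by positivity)).2
    exact h2
  · intro h
    refine ⟨hc, fun ξ => ?_⟩
    rw [← hnorm, ← hnorm2]
    have h1 := Matrix.l2_opNorm_mulVec a (WithLp.toLp 2 ξ)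
    have h2 : ‖(WithLp.toLp 2 (a.mulVec ξ) : EuclideanSpace ℂ ι)‖ ≤
        c * ‖(WithLp.toLp 2 ξ : EuclideanSpace ℂ ι)‖ := by
      refine le_trans ?_ (mul_le_mul_of_nonneg_right h (norm_nonneg _))
      exact h1
    rw [← mul_pow]
    gcongr

theorem opLE_one {H : Type} [NormedAddCommGroup H] [InnerProductSpace ℂ H]
    (a : Matrix (Fin 1) (Fin 1) (H →L[ℂ] H)) (c : ℝ) (hc : ‖a 0 0‖ ≤ c) : OpLE a c := by
  have hc0 : 0 ≤ c := (norm_nonneg _).trans hc
  refine ⟨hc0, fun ξ => ?_⟩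
  simp only [Fin.sum_univ_one, Fin.isValue]
  have h1 : ‖a 0 0 (ξ 0)‖ ≤ c * ‖ξ 0‖ :=
    ((a 0 0).le_opNorm _).trans (by gcongr)
  calc ‖a 0 0 (ξ 0)‖ ^ 2 ≤ (c * ‖ξ 0‖) ^ 2 := by gcongr
    _ = _ := by ring

theorem maxN_one {F : Type} [NormedAddCommGroup F] [NormedSpace ℂ F] (x : F) :
    maxN F 1 (fun _ _ => x) ‖x‖ := by
  refine ⟨norm_nonneg _, fun H _ _ _ w hw => opLE_one _ _ ?_⟩
  calc ‖w x‖ ≤ ‖w‖ * ‖x‖ := w.le_opNorm x
    _ ≤ 1 * ‖x‖ := by gcongr
    _ = ‖x‖ := one_mul _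

theorem dual_bound {F : Type} [NormedAddCommGroup F] [NormedSpace ℂ F] {m : ℕ}
    (f : Matrix (Fin m) (Fin m) (F →L[ℂ] ℂ)) (d : ℝ) (h : dualN (maxN F) m f d) (x : F) :
    ‖(Matrix.of fun k l => f k l x : Matrix (Fin m) (Fin m) ℂ)‖ ≤ d * ‖x‖ := by
  have hd := h.1
  have h1 := h.2 1 (fun _ _ => x) ‖x‖ (maxN_one x)
  rw [← scLE_iff _ _ (by positivity)]
  refine ⟨by positivity, fun ξ => ?_⟩
  have h2 := h1.2 (fun p => ξ p.1)
  simpa [Fintype.sum_prod_type] using h2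

theorem locRefl_false (lam : ℝ) (hlam : 1 ≤ lam) : ¬ LocallyReflexive (maxN BH) lam := by
  classical
  intro hLR
  obtain ⟨Λ, i1, ι, i2, i3, u, R, hR, hu, h⟩ := gap_exists (lam + 3)
  choose z hz1 hz2 hz3 using h
  obtain ⟨Δ, c, hΔ1, hΔ2, hΔ3, hc1, hc2⟩ := emb (ι := ι)
  obtain ⟨Φ, hΦ1, hΦ2⟩ := limFunctional z R hR hz1 c hc1 hc2
  obtain ⟨S, hS1, hS2, hS3⟩ := singPart
  let K : Submodule ℂ BH := compactOperator (RingHom.id ℂ) _ _
  have hK : ∀ k : BH, k ∈ K ↔ IsCompactOperator (⇑k) := fun k => Iff.rfl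
  obtain ⟨H, j1, j2, j3, D, hD1, hD2, hD3⟩ := diagEmb K
  -- functionals killing `K` factor through `D`
  have hker : ∀ (f : BH →L[ℂ] ℂ), (∀ k : BH, IsCompactOperator (⇑k) → f k = 0) →
      ∀ x : BH, D x = 0 → f x = 0 := by
    intro f hf x hx
    -- normalise
    let w : BH →ₗ[ℂ] Matrix (Fin 1) (Fin 1) ℂ :=
      { toFun := fun y => Matrix.of fun _ _ => ((‖f‖ + 1 : ℝ) : ℂ)⁻¹ * f y
        map_add' := fun a b => by ext; simp [mul_add]
        map_smul' := fun t a => by ext; simp; ring }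
    have hw1 : ∀ y, ‖w y‖ ≤ ‖y‖ := by
      intro y
      rw [← scLE_iff _ _ (norm_nonneg y)]
      refine ⟨norm_nonneg y, fun ξ => ?_⟩
      have hy : ‖((‖f‖ + 1 : ℝ) : ℂ)⁻¹ * f y‖ ≤ ‖y‖ := by
        rw [norm_mul, norm_inv, Complex.norm_real, Real.norm_of_nonneg (by positivity),
          inv_mul_le_iff₀ (by positivity)]
        have := f.le_opNorm y
        nlinarith [norm_nonneg y]
      simp only [Fin.sum_univ_one, Fin.isValue]
      show ‖((‖f‖ + 1 : ℝ) : ℂ)⁻¹ * f y * ξ 0‖ ^ 2 ≤ _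
      rw [norm_mul, mul_pow]
      gcongr
    have hw2 : ∀ k ∈ K, w k = 0 := by
      intro k hk
      have : f k = 0 := hf k ((hK k).1 hk)
      ext a b
      show ((‖f‖ + 1 : ℝ) : ℂ)⁻¹ * f k = 0
      rw [this, mul_zero]
    have h1 := hD3 1 w hw1 hw2 1 (fun _ _ => x) 0 (by
      show OpLE (fun _ _ => D x) 0
      rw [hx]
      exact opLE_one _ _ (by simp))
    have h2 := h1.2 (fun _ => 1)
    simp only [Fintype.sum_prod_type, Fin.sum_univ_one, Fin.isValue] at h2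
    have h3 : ‖((‖f‖ + 1 : ℝ) : ℂ)⁻¹ * f x * 1‖ ^ 2 ≤ 0 := by
      refine le_trans (le_of_eq ?_) (h2.trans (le_of_eq (by simp)))
      rfl
    have h4 : ‖((‖f‖ + 1 : ℝ) : ℂ)⁻¹ * f x * 1‖ = 0 := by
      have := norm_nonneg (((‖f‖ + 1 : ℝ) : ℂ)⁻¹ * f x * 1)
      nlinarith
    rw [norm_eq_zero, mul_one, mul_eq_zero] at h4
    rcases h4 with h4 | h4
    · exfalso
      have : ((‖f‖ + 1 : ℝ) : ℂ) ≠ 0 := by
        have : (‖f‖ + 1 : ℝ) ≠ 0 := by positivity
        exact_mod_cast this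
      exact this (inv_eq_zero.1 h4)
    · exact h4
  -- the finite-dimensional operator space
  let e : Λ → (H →L[ℂ] H) := fun k => D (Δ (u k))
  let E : Submodule ℂ (H →L[ℂ] H) := Submodule.span ℂ (Set.range e)
  have hE : FiniteDimensional ℂ E := FiniteDimensional.span_of_finite ℂ (Set.finite_range e)
  have heE : ∀ k, e k ∈ E := fun k => Submodule.subset_span ⟨k, rfl⟩
  have hEle : E ≤ LinearMap.range D := by
    rw [Submodule.span_le]
    rintro _ ⟨k, rfl⟩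
    exact ⟨Δ (u k), rfl⟩
  obtain ⟨g, hg⟩ := LinearMap.exists_rightInverse_of_surjective D.rangeRestrict
    (LinearMap.range_rangeRestrict D)
  let s : E →ₗ[ℂ] BH := g.comp (Submodule.inclusion hEle)
  have hs : ∀ x : E, D (s x) = (x : H →L[ℂ] H) := by
    intro x
    have := congrArg (fun f => (f (Submodule.inclusion hEle x) : H →L[ℂ] H)) hg
    simp only [LinearMap.comp_apply, LinearMap.id_apply, LinearMap.codRestrict_apply] at this
    exact this
  -- `S` as a continuous map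
  have hSnorm : ∀ f : BH →L[ℂ] ℂ, ∀ x, ‖S f x‖ ≤ ‖f‖ * ‖x‖ := by
    intro f x
    have h1 := hS3 1 (fun _ _ => f) ‖f‖ (by
      intro y
      rw [← scLE_iff _ _ (by positivity)]
      refine ⟨by positivity, fun ξ => ?_⟩
      simp only [Fin.sum_univ_one, Fin.isValue, Matrix.of_apply]
      rw [norm_mul, mul_pow]
      have := f.le_opNorm y
      gcongr) x
    rw [← scLE_iff _ _ (by positivity)] at h1
    have h2 := h1.2 (fun _ => 1)
    simp only [Fin.sum_univ_one, Fin.isValue, Matrix.of_apply, mul_one, norm_one, one_pow] at h2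
    exact abs_le_of_sq_le_sq' h2 (by positivity) |>.2
  let U : E →ₗ[ℂ] ((BH →L[ℂ] ℂ) →L[ℂ] ℂ) :=
    { toFun := fun x => LinearMap.mkContinuous
        { toFun := fun f => S f (s x)
          map_add' := fun f f' => by rw [map_add]; rfl
          map_smul' := fun t f => by rw [map_smul]; rfl } ‖s x‖ (by
            intro f
            show ‖S f (s x)‖ ≤ _
            rw [mul_comm]
            exact hSnorm f (s x))
      map_add' := fun x y => by
        ext f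
        show S f (s (x + y)) = S f (s x) + S f (s y)
        rw [map_add, map_add]
      map_smul' := fun t x => by
        ext f
        show S f (s (t • x)) = t • S f (s x)
        rw [map_smul, map_smul] }
  have hU : ∀ x f, U x f = S f (s x) := fun x f => rfl
  have hUcb : CBLE (concN E) (dualN (dualN (maxN BH))) U 1 := by
    intro n x cc hx
    rw [one_mul]
    have hcc : 0 ≤ cc := hx.1
    refine ⟨hcc, fun m f d hf => ?_⟩
    have hd : 0 ≤ d := hf.1
    -- enough: for all d' > d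
    have key : ∀ d' : ℝ, d < d' →
        ScLE (fun p q : Fin n × Fin m => (x.map U) p.1 q.1 (f p.2 q.2)) (cc * d') := by
      intro d' hd'
      have hd'0 : 0 < d' := lt_of_le_of_lt hd hd'
      let w : BH →ₗ[ℂ] Matrix (Fin m) (Fin m) ℂ :=
        { toFun := fun y => Matrix.of fun k l => ((d' : ℝ) : ℂ)⁻¹ * S (f k l) y
          map_add' := fun a b => by ext; simp [mul_add]
          map_smul' := fun t a => by ext; simp; ring }
      have hw0 : ∀ y, w y = ((d' : ℝ) : ℂ)⁻¹ • (Matrix.of fun k l => S (f k l) y) := by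
        intro y; ext; simp [w]
      have hw1 : ∀ y, ‖w y‖ ≤ ‖y‖ := by
        intro y
        have h1 := hS3 m f d (fun x => dual_bound f d hf x) y
        rw [hw0, norm_smul, norm_inv, Complex.norm_real, Real.norm_of_nonneg hd'0.le,
          inv_mul_le_iff₀ hd'0]
        exact h1.trans (by gcongr)
      have hw2 : ∀ k ∈ K, w k = 0 := by
        intro k hk
        ext a b
        show ((d' : ℝ) : ℂ)⁻¹ * S (f a b) k = 0
        rw [hS1 _ k ((hK k).1 hk), mul_zero]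
      have h1 := hD3 m w hw1 hw2 n (fun i j => s (x i j)) cc (by
        have : (fun i j => D (s (x i j))) = (fun i j => ((x i j : E) : H →L[ℂ] H)) := by
          funext i j; exact hs _
        rw [this]
        exact hx)
      refine ⟨by positivity, fun ξ => ?_⟩
      have h2 := h1.2 ξ
      have h3 : ∀ p q : Fin n × Fin m, (x.map U) p.1 q.1 (f p.2 q.2) =
          ((d' : ℝ) : ℂ) * w (s (x p.1 q.1)) p.2 q.2 := by
        intro p q
        show S (f p.2 q.2) (s (x p.1 q.1)) = ((d' : ℝ) : ℂ) * (((d' : ℝ) : ℂ)⁻¹ * S (f p.2 q.2) (s (x p.1 q.1)))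
        have : ((d' : ℝ) : ℂ) ≠ 0 := by exact_mod_cast hd'0.ne'
        field_simp
      simp only [h3]
      have h4 : ∀ i : Fin n × Fin m, ∑ q : Fin n × Fin m, ((d' : ℝ) : ℂ) * w (s (x i.1 q.1)) i.2 q.2 * ξ q =
          ((d' : ℝ) : ℂ) * ∑ q : Fin n × Fin m, w (s (x i.1 q.1)) i.2 q.2 * ξ q := by
        intro i; rw [Finset.mul_sum]; congr 1; funext q; ring
      simp only [h4, norm_mul, mul_pow, Complex.norm_real, Real.norm_of_nonneg hd'0.le]
      rw [← Finset.mul_sum]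
      calc _ ≤ d' ^ 2 * (cc ^ 2 * ∑ j, ‖ξ j‖ ^ 2) := by gcongr
        _ = _ := by ring
    refine ⟨by positivity, fun ξ => ?_⟩
    have hlim : Filter.Tendsto (fun d' : ℝ => (cc * d') ^ 2 * ∑ j, ‖ξ j‖ ^ 2)
        (nhdsWithin d (Set.Ioi d)) (nhds ((cc * d) ^ 2 * ∑ j, ‖ξ j‖ ^ 2)) := by
      refine Filter.Tendsto.mono_left ?_ nhdsWithin_le_nhds
      exact (Continuous.tendsto (by fun_prop) d)
    refine ge_of_tendsto hlim ?_
    filter_upwards [self_mem_nhdsWithin] with d' hd'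
    exact (key d' hd').2 ξ
  -- apply local reflexivity
  obtain ⟨v, hv1, hv2⟩ := hLR H E U hUcb (Finset.univ.image fun k => (⟨e k, heE k⟩ : E))
    (Finset.univ.image Φ) (1 / (Fintype.card Λ + 1)) (by positivity)
  have hclose : ∀ k, ‖Φ k (v ⟨e k, heE k⟩) - Φ k (Δ (u k))‖ ≤ 1 / (Fintype.card Λ + 1) := by
    intro k
    have h1 := hv2 ⟨e k, heE k⟩ (Finset.mem_image_of_mem _ (Finset.mem_univ k)) (Φ k)
      (Finset.mem_image_of_mem _ (Finset.mem_univ k))
    have h2 : U ⟨e k, heE k⟩ (Φ k) = Φ k (Δ (u k)) := by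
      rw [hU, hS2 _ (hΦ1 k)]
      have h3 : D (s ⟨e k, heE k⟩ - Δ (u k)) = 0 := by
        rw [map_sub, hs]
        exact sub_self _
      have h4 := hker (Φ k) (hΦ1 k) _ h3
      rw [map_sub, sub_eq_zero] at h4
      exact h4
    rw [h2] at h1
    exact h1.le
  have hsum : ‖∑ k, Φ k (v ⟨e k, heE k⟩) - ∑ k, Φ k (Δ (u k))‖ ≤ 1 := by
    rw [← Finset.sum_sub_distrib]
    refine (norm_sum_le _ _).trans ((Finset.sum_le_sum fun k _ => hclose k).trans ?_)
    rw [Finset.sum_const, Finset.card_univ, nsmul_eq_mul, mul_one_div, div_le_one (by positivity)]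
    linarith
  have hlow : lam + 2 ≤ ‖∑ k, Φ k (Δ (u k))‖ := by
    obtain ⟨j, hj⟩ := hΦ2 (fun k => Δ (u k)) 1 one_pos
    have h1 : (fun k => c j (Δ (u k))) = fun k => u k j := by
      funext k; exact hΔ3 (u k) 1 (hu k) j
    rw [h1] at hj
    have h2 := hz3 j
    have h3 := norm_sub_norm_le (z j fun k => u k j) (∑ k, Φ k (Δ (u k)))
    linarith
  obtain ⟨j, hj⟩ := hΦ2 (fun k => v ⟨e k, heE k⟩) (1 / 2) (by norm_num)
  have hbig : lam + 1 / 2 ≤ ‖z j (fun k => c j (v ⟨e k, heE k⟩))‖ := by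
    have h1 := norm_sub_norm_le (∑ k, Φ k (Δ (u k))) (∑ k, Φ k (v ⟨e k, heE k⟩))
    rw [norm_sub_rev] at h1
    have h2 := norm_sub_norm_le (∑ k, Φ k (v ⟨e k, heE k⟩)) (z j (fun k => c j (v ⟨e k, heE k⟩)))
    rw [norm_sub_rev] at h2
    linarith
  -- extend `c j ∘ v`
  have hlam0 : 0 < lam := by linarith
  obtain ⟨T0, hT01, hT02⟩ := wittstock E ((c j).comp v) lam hlam0 (by
    intro n x hx
    have h1 : maxN BH n (x.map v) (lam * 1) := hv1 n x 1 hx
    let w : BH →L[ℂ] (EuclideanSpace ℂ (ι j) →L[ℂ] EuclideanSpace ℂ (ι j)) :=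
      LinearMap.mkContinuous
        ((Matrix.toEuclideanCLM (n := ι j) (𝕜 := ℂ)).toAlgEquiv.toLinearMap.comp (c j)) 1 (by
          intro a
          rw [one_mul]
          exact hc1 j a)
    have hw : ‖w‖ ≤ 1 := LinearMap.mkContinuous_norm_le _ zero_le_one _
    have h2 := h1.2 (EuclideanSpace ℂ (ι j)) w hw
    rw [mul_one] at h2
    exact h2)
  let T : (∀ i, Matrix (ι i) (ι i) ℂ) →ₗ[ℂ] Matrix (ι j) (ι j) ℂ := T0.comp (D.comp Δ)
  have hT : ∀ (x : ∀ i, Matrix (ι i) (ι i) ℂ) (b : ℝ), (∀ᶠ i in Filter.atTop, ‖x i‖ ≤ b) →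
      ‖T x‖ ≤ lam * b := by
    intro x b hb
    obtain ⟨i0, hi0⟩ := hb.exists
    have hb0 : 0 ≤ b := (norm_nonneg _).trans hi0
    let x' : ∀ i, Matrix (ι i) (ι i) ℂ := fun i => if ‖x i‖ ≤ b then x i else 0
    have hx'1 : ∀ i, ‖x' i‖ ≤ b := by
      intro i
      by_cases h : ‖x i‖ ≤ b
      · simp [x', h]
      · simpa [x', h] using hb0
    have hx'2 : ∀ᶠ i in Filter.atTop, (x - x') i = 0 := by
      filter_upwards [hb] with i hi
      simp [x', hi]
    have hcomp := hΔ2 _ hx'2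
    have hDx : D (Δ x) = D (Δ x') := by
      have : Δ x = Δ x' + Δ (x - x') := by rw [← map_add]; congr 1; abel
      rw [this, map_add, hD2 _ ((hK _).2 hcomp), add_zero]
    calc ‖T x‖ = ‖T0 (D (Δ x'))‖ := by simp [T, hDx]
      _ ≤ lam * ‖D (Δ x')‖ := hT02 _
      _ ≤ lam * b := by
          have h1 := hD1 (Δ x')
          have h2 := hΔ1 x' b hb0 hx'1
          gcongr
          exact h1.trans h2
  have hup := hz2 j (((lam⁻¹ : ℝ) : ℂ) • T) (by
    intro x b hb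
    have := hT x b hb
    rw [LinearMap.smul_apply, norm_smul, Complex.norm_real, Real.norm_of_nonneg (by positivity),
      inv_mul_le_iff₀ hlam0]
    linarith)
  have h2 : (fun k => (((lam⁻¹ : ℝ) : ℂ) • T) (u k)) = ((lam⁻¹ : ℝ) : ℂ) • fun k => T (u k) := rfl
  rw [h2, map_smul, norm_smul, Complex.norm_real, Real.norm_of_nonneg (by positivity),
    inv_mul_le_iff₀ hlam0, mul_one] at hup
  have h3 : (fun k => T (u k)) = fun k => c j (v ⟨e k, heE k⟩) := by
    funext k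
    show T0 (D (Δ (u k))) = _
    exact hT01 ⟨e k, heE k⟩
  rw [h3] at hup
  linarith

end Pool.Agent.Helper234.MaxLR
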